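import Pool.Agent.X184.RM.F

/-!
# Every polygon with more than six vertices
-/

namespace Pool.Agent.X184.RM

open Finset Function

theorem good8 : Good0 8 28 := by
  set z := Complex.exp (2 * Real.pi * Complex.I / ((2 * 4 : ℕ) : ℂ)) with hz
  have hz4 : z ^ 4 = -1 := by
    rw [hz, ← Complex.exp_nat_mul, ← Complex.exp_pi_mul_I]
    congr 1; push_cast; ring
  obtain ⟨X', hc, hX⟩ := oct z hz4
  have hz0 : z ≠ 0 := Complex.exp_ne_zero _
  -- real part
  have hzr : z.re = Real.cos (Real.pi / 4) := by
    have : z = Complex.exp (((Real.pi / 4 : ℝ) : ℂ) * Complex.I) := by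
      rw [hz]; congr 1; push_cast; ring
    rw [this, Complex.exp_ofReal_mul_I_re]
  have hz3r : (z ^ 3).re = - Real.cos (Real.pi / 4) := by
    have : z ^ 3 = Complex.exp (((Real.pi - Real.pi / 4 : ℝ) : ℂ) * Complex.I) := by
      rw [hz, ← Complex.exp_nat_mul]; congr 1; push_cast; ring
    rw [this, Complex.exp_ofReal_mul_I_re, Real.cos_pi_sub]
  have hcos : 0 < Real.cos (Real.pi / 4) := by
    rw [Real.cos_pi_div_four]; positivity
  have hu : 1 < ‖3 + 2 * z - 2 * z ^ 3‖ := by
    have h1 := Complex.re_le_norm (3 + 2 * z - 2 * z ^ 3)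
    have h2 : (3 + 2 * z - 2 * z ^ 3).re = 3 + 4 * Real.cos (Real.pi / 4) := by
      simp [hzr, hz3r]; ring
    rw [h2] at h1
    linarith
  exact good_of_pow 4 (by norm_num) _ hu 14 X' hc hX

theorem good12 : Good0 12 34 := by
  set z := Complex.exp (2 * Real.pi * Complex.I / ((2 * 6 : ℕ) : ℂ)) with hz
  have hprim : IsPrimitiveRoot z (2 * 6) := Complex.isPrimitiveRoot_exp _ (by norm_num)
  have hz3 : z ^ 3 = Complex.I := by
    rw [hz, ← Complex.exp_nat_mul]
    have : (((3 : ℕ) : ℂ) * (2 * Real.pi * Complex.I / ((2 * 6 : ℕ) : ℂ)))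
        = ((Real.pi / 2 : ℝ) : ℂ) * Complex.I := by push_cast; ring
    rw [this]
    apply Complex.ext
    · rw [Complex.exp_ofReal_mul_I_re]; simp
    · rw [Complex.exp_ofReal_mul_I_im]; simp
  have hz4 : z ^ 4 = z ^ 2 - 1 := by
    have h6 : z ^ 6 = -1 := by
      have : z ^ 6 = (z ^ 3) ^ 2 := by ring
      rw [this, hz3, Complex.I_sq]
    have hne : z ^ 2 + 1 ≠ 0 := by
      intro h
      have h4 : z ^ 4 = 1 := by linear_combination (z ^ 2 - 1) * h
      have := (hprim.pow_eq_one_iff_dvd 4).mp h4
      norm_num at this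
    have : (z ^ 2 + 1) * (z ^ 4 - (z ^ 2 - 1)) = 0 := by linear_combination h6
    exact sub_eq_zero.mp ((mul_eq_zero.mp this).resolve_left hne)
  obtain ⟨X', hc, hX⟩ := dodec z hz4
  have hz2i : (z ^ 2).im = Real.sin (Real.pi / 3) := by
    have : z ^ 2 = Complex.exp (((Real.pi / 3 : ℝ) : ℂ) * Complex.I) := by
      rw [hz, ← Complex.exp_nat_mul]; congr 1; push_cast; ring
    rw [this, Complex.exp_ofReal_mul_I_im]
  have hsin : 0 < Real.sin (Real.pi / 3) := by
    rw [Real.sin_pi_div_three]; positivity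
  have hu : 1 < ‖1 - 2 * z ^ 2 - 2 * z ^ 3‖ := by
    have h1 := Complex.abs_im_le_norm (1 - 2 * z ^ 2 - 2 * z ^ 3)
    have h2 : (1 - 2 * z ^ 2 - 2 * z ^ 3).im = -(2 * Real.sin (Real.pi / 3) + 2) := by
      rw [hz3]
      simp [hz2i]; ring
    rw [h2, abs_neg, abs_of_pos (by linarith)] at h1
    linarith
  exact good_of_pow 6 (by norm_num) _ hu 17 X' hc hX

/-- concentric sub-polygons -/
theorem good0_mul (N t k : ℕ) (hN : 0 < N) (ht : 0 < t) (h : Good0 N k) :
    Good0 (N * t) (k * t) := by
  obtain ⟨q, hq, u, hu, hr⟩ := h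
  set a : Fin t → ℂ := fun i => Complex.exp (2 * Real.pi * Complex.I * (i.val : ℂ) / ((N * t : ℕ) : ℂ))
    with ha
  set P : Fin N × Fin t → ℂ := fun x => a x.2 * regular N x.1 with hP
  have hNC : (N : ℂ) ≠ 0 := by exact_mod_cast hN.ne'
  have htC : (t : ℂ) ≠ 0 := by exact_mod_cast ht.ne'
  have hPreg : ∀ x, P x = regular (N * t) (finProdFinEquiv x) := by
    rintro ⟨j, i⟩
    simp only [hP, ha, regular, finProdFinEquiv_apply_val]
    rw [← Complex.exp_add]
    congr 1
    push_cast
    field_simp
  set F : Finset (Fin t) → Fin N × Fin t → ℂ :=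
    fun s x => if x.2 ∈ s then a x.2 * q x.1 else P x with hF
  have hchain : ∀ s : Finset (Fin t), Chain Move (k * s.card) P (F s) := by
    intro s
    induction s using Finset.induction_on with
    | empty =>
      have : F ∅ = P := by ext x; simp [hF]
      rw [this]; exact Chain.refl _ _
    | insert i s hi ih =>
      rw [Finset.card_insert_of_notMem hi]
      set e : Fin N → Fin N × Fin t := fun j => (j, i) with he
      have hei : Injective e := fun x y hxy => congrArg Prod.fst hxy
      have h1 := (hq.mulLeft (a i)).embed e hei (F s)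
      have e1 : extend e (fun j => a i * regular N j) (F s) = F s := by
        ext x
        by_cases hx : ∃ j, e j = x
        · obtain ⟨j, rfl⟩ := hx
          rw [hei.extend_apply]
          simp [hF, hP, he, hi]
        · rw [extend_apply' _ _ _ hx]
      have e2 : extend e (fun j => a i * q j) (F s) = F (insert i s) := by
        ext x
        by_cases hx : ∃ j, e j = x
        · obtain ⟨j, rfl⟩ := hx
          rw [hei.extend_apply]
          simp [hF, he]
        · rw [extend_apply' _ _ _ hx]
          have hne : x.2 ≠ i := by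
            intro h; apply hx; exact ⟨x.1, by simp only [he]; rw [← h]⟩
          simp only [hF, Finset.mem_insert, hne, false_or]
      rw [e1, e2] at h1
      exact (ih.trans h1).mono (le_of_eq (by ring))
  have hfin := hchain univ
  rw [Finset.card_univ, Fintype.card_fin] at hfin
  have hregN : regular (N * t) = P ∘ finProdFinEquiv.symm := by
    ext j
    rw [comp_apply, hPreg, Equiv.apply_symm_apply]
  refine ⟨F univ ∘ finProdFinEquiv.symm, ?_, u, hu, ?_⟩
  · rw [hregN]; exact hfin.reindex finProdFinEquiv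
  · rw [hregN, Set.range_comp (F univ) finProdFinEquiv.symm,
      finProdFinEquiv.symm.surjective.range_eq, Set.image_univ,
      Set.range_comp P finProdFinEquiv.symm, finProdFinEquiv.symm.surjective.range_eq,
      Set.image_univ]
    ext v
    rw [Set.mem_image]
    constructor
    · rintro ⟨⟨j, i⟩, rfl⟩
      have : q j ∈ (fun v => u * v) '' Set.range (regular N) := by rw [← hr]; exact ⟨j, rfl⟩
      obtain ⟨w, ⟨j', rfl⟩, hw⟩ := this
      refine ⟨P (j', i), ⟨_, rfl⟩, ?_⟩
      simp only [hF, hP, Finset.mem_univ, if_true]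
      rw [← hw]; ring
    · rintro ⟨w, ⟨⟨j, i⟩, rfl⟩, rfl⟩
      have : u * regular N j ∈ Set.range q := by rw [hr]; exact ⟨_, ⟨j, rfl⟩, rfl⟩
      obtain ⟨j', hj'⟩ := this
      refine ⟨(j', i), ?_⟩
      simp only [hF, hP, Finset.mem_univ, if_true]
      rw [hj']; ring

theorem good_all (N : ℕ) (hN : 6 < N) : ∃ k ≤ N ^ 3, Good N k := by
  rcases Nat.even_or_odd' N with ⟨M, hM | hM⟩
  · -- even
    have key : ∃ N0 k0 : ℕ, 0 < N0 ∧ N0 ∣ N ∧ k0 ≤ N0 ^ 3 ∧ Good0 N0 k0 := by
      obtain ⟨a, b, hb, hab⟩ := Nat.exists_eq_two_pow_mul_odd (n := N) (by omega)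
      by_cases hb5 : 5 ≤ b
      · obtain ⟨n, rfl⟩ := hb
        have ha : 1 ≤ a := by
          by_contra hcon
          have : a = 0 := by omega
          rw [this] at hab
          omega
        refine ⟨2 * (2 * n + 1), _, by omega, ?_, ?_, good_even n (by omega)⟩
        · rw [hab]
          exact Nat.mul_dvd_mul (dvd_pow_self 2 (by omega)) dvd_rfl
        · have hn : 2 ≤ n := by omega
          nlinarith [Nat.zero_le n, mul_self_nonneg n, Nat.zero_le (n * n)]
      · have hb' : b = 1 ∨ b = 3 := by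
          obtain ⟨n, rfl⟩ := hb
          omega
        rcases hb' with rfl | rfl
        · have ha : 3 ≤ a := by
            by_contra hcon
            have : a ≤ 2 := by omega
            have : 2 ^ a ≤ 2 ^ 2 := Nat.pow_le_pow_right (by norm_num) this
            omega
          refine ⟨8, 28, by norm_num, ?_, by norm_num, good8⟩
          rw [hab, mul_one]
          exact pow_dvd_pow 2 ha
        · have ha : 2 ≤ a := by
            by_contra hcon
            have : a ≤ 1 := by omega
            have : 2 ^ a ≤ 2 ^ 1 := Nat.pow_le_pow_right (by norm_num) this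
            omega
          refine ⟨12, 34, by norm_num, ?_, by norm_num, good12⟩
          rw [hab]
          exact Nat.mul_dvd_mul (a := 4) (pow_dvd_pow 2 ha) dvd_rfl
    obtain ⟨N0, k0, h0, ⟨t, ht⟩, hk, hg⟩ := key
    have htpos : 0 < t := by
      rcases Nat.eq_zero_or_pos t with h | h
      · rw [h] at ht; omega
      · exact h
    refine ⟨k0 * t, ?_, ?_⟩
    · rw [ht]
      calc k0 * t ≤ N0 ^ 3 * t := Nat.mul_le_mul_right t hk
        _ ≤ N0 ^ 3 * t ^ 3 := Nat.mul_le_mul_left _ (Nat.le_self_pow (by norm_num) t)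
        _ = (N0 * t) ^ 3 := by ring
    · rw [ht]
      exact (good0_mul N0 t k0 h0 htpos hg).good
  · subst hM
    refine ⟨_, ?_, good_odd M (by omega)⟩
    have hn : 3 ≤ M := by omega
    nlinarith [Nat.zero_le M, Nat.zero_le (M * M)]

end Pool.Agent.X184.RM
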