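import Mathlib

/-!
# Reflection moves: chains of moves, elementary operations on tuples, simulations
-/

namespace Pool.Agent.X184.RM

open Finset Function

/-- `Chain S k a b`: `b` is reached from `a` by at most `k` steps of the relation `S`. -/
inductive Chain {α : Type*} (S : α → α → Prop) : ℕ → α → α → Prop
  | refl (k : ℕ) (a : α) : Chain S k a a
  | step {k : ℕ} {a b c : α} (h : Chain S k a b) (hs : S b c) : Chain S (k + 1) a c

theorem Chain.mono {α : Type*} {S : α → α → Prop} {k : ℕ} {a b : α} (h : Chain S k a b) :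
    ∀ {l : ℕ}, k ≤ l → Chain S l a b := by
  induction h with
  | refl k a => intro l _; exact Chain.refl l a
  | step h hs ih =>
    intro l hl
    obtain ⟨l', rfl⟩ : ∃ l', l = l' + 1 := ⟨l - 1, by omega⟩
    exact Chain.step (ih (by omega)) hs

theorem Chain.single {α : Type*} {S : α → α → Prop} {a b : α} (h : S a b) : Chain S 1 a b :=
  Chain.step (Chain.refl 0 a) h

theorem Chain.trans {α : Type*} {S : α → α → Prop} {k l : ℕ} {a b c : α}
    (h1 : Chain S k a b) (h2 : Chain S l b c) : Chain S (k + l) a c := by
  induction h2 with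
  | refl l b => exact h1.mono (by omega)
  | step h hs ih => exact Chain.step (ih h1) hs

theorem Chain.simulate {α β : Type*} {S : α → α → Prop} {T : β → β → Prop}
    (Rel : β → α → Prop) (c : ℕ)
    (h : ∀ x a b, Rel x a → S a b → ∃ y, Chain T c x y ∧ Rel y b)
    {k : ℕ} {a b : α} (hc : Chain S k a b) :
    ∀ x, Rel x a → ∃ y, Chain T (c * k) x y ∧ Rel y b := by
  induction hc with
  | refl k a => intro x hx; exact ⟨x, Chain.refl _ x, hx⟩
  | step hch hs ih =>
    intro x hx
    obtain ⟨y, hy, hyr⟩ := ih x hx
    obtain ⟨z, hz, hzr⟩ := h y _ _ hyr hs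
    exact ⟨z, (hy.trans hz).mono (le_of_eq (by ring)), hzr⟩

/-- The elementary operations of level two on tuples of complex numbers. -/
inductive Elem {κ : Type*} [DecidableEq κ] : (κ → ℂ) → (κ → ℂ) → Prop
  | add (y : κ → ℂ) (i j : κ) (h : i ≠ j) : Elem y (update y i (y i + 2 * y j))
  | sub (y : κ → ℂ) (i j : κ) (h : i ≠ j) : Elem y (update y i (y i - 2 * y j))
  | neg (y : κ → ℂ) (i : κ) : Elem y (update y i (- y i))

/-- The point reflection of the `i`-th piece in the `j`-th one. -/
inductive Move {ι : Type*} [DecidableEq ι] : (ι → ℂ) → (ι → ℂ) → Prop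
  | jump (p : ι → ℂ) (i j : ι) (h : i ≠ j) : Move p (update p i (2 * p j - p i))

/-- Adding a small combination of other entries to an entry. -/
theorem upd_add {κ : Type*} [DecidableEq κ] (y : κ → ℂ) (i : κ) (s : Finset κ) (hi : i ∉ s)
    (c : κ → ℤ) (hc : ∀ j ∈ s, c j = 0 ∨ c j = 1 ∨ c j = -1) :
    Chain Elem s.card y (update y i (y i + 2 * ∑ j ∈ s, (c j : ℂ) * y j)) := by
  classical
  induction s using Finset.induction_on with
  | empty =>
    have : update y i (y i + 2 * ∑ j ∈ (∅ : Finset κ), (c j : ℂ) * y j) = y := by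
      simp
    rw [this]
    exact Chain.refl _ _
  | insert a s ha ih =>
    have hia : i ≠ a := fun h => hi (h ▸ Finset.mem_insert_self a s)
    have his : i ∉ s := fun h => hi (Finset.mem_insert_of_mem h)
    have h1 := ih his (fun j hj => hc j (Finset.mem_insert_of_mem hj))
    rw [Finset.card_insert_of_notMem ha]
    set y1 := update y i (y i + 2 * ∑ j ∈ s, (c j : ℂ) * y j) with hy1
    have hy1a : y1 a = y a := by rw [hy1, update_of_ne (Ne.symm hia)]
    have hy1i : y1 i = y i + 2 * ∑ j ∈ s, (c j : ℂ) * y j := by rw [hy1, update_self]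
    have hup : ∀ v, update y1 i v = update y i v := by
      intro v; rw [hy1, update_idem]
    rcases hc a (Finset.mem_insert_self a s) with h0 | h0 | h0
    · have : update y i (y i + 2 * ∑ j ∈ insert a s, (c j : ℂ) * y j) = y1 := by
        rw [Finset.sum_insert ha, h0, hy1]; simp
      rw [this]
      exact h1.mono (by omega)
    · have : update y i (y i + 2 * ∑ j ∈ insert a s, (c j : ℂ) * y j)
          = update y1 i (y1 i + 2 * y1 a) := by
        rw [Finset.sum_insert ha, h0, hup, hy1i, hy1a]; congr 1; push_cast; ring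
      rw [this]
      exact Chain.step h1 (Elem.add y1 i a hia)
    · have : update y i (y i + 2 * ∑ j ∈ insert a s, (c j : ℂ) * y j)
          = update y1 i (y1 i - 2 * y1 a) := by
        rw [Finset.sum_insert ha, h0, hup, hy1i, hy1a]; congr 1; push_cast; ring
      rw [this]
      exact Chain.step h1 (Elem.sub y1 i a hia)

theorem upd_gen {κ : Type*} [DecidableEq κ] (y : κ → ℂ) (i : κ) (s : Finset κ) (hi : i ∉ s)
    (c : κ → ℤ) (hc : ∀ j ∈ s, c j = 0 ∨ c j = 1 ∨ c j = -1) (ε : ℤ) (hε : ε = 1 ∨ ε = -1) :
    Chain Elem (s.card + 1) y (update y i (ε * y i + 2 * ∑ j ∈ s, (c j : ℂ) * y j)) := by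
  rcases hε with h | h
  · subst h
    have := (upd_add y i s hi c hc).mono (Nat.le_succ _)
    simpa using this
  · subst h
    set y1 := update y i (- y i) with hy1
    have h1 : Chain Elem 1 y y1 := Chain.single (Elem.neg y i)
    have h2 := upd_add y1 i s hi c hc
    have hs : ∑ j ∈ s, (c j : ℂ) * y1 j = ∑ j ∈ s, (c j : ℂ) * y j := by
      apply Finset.sum_congr rfl
      intro j hj
      have : j ≠ i := fun h => hi (h ▸ hj)
      rw [hy1, update_of_ne this]
    have h3 : update y1 i (y1 i + 2 * ∑ j ∈ s, (c j : ℂ) * y1 j)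
        = update y i (((-1 : ℤ) : ℂ) * y i + 2 * ∑ j ∈ s, (c j : ℂ) * y j) := by
      rw [hs, hy1, update_idem, update_self]; congr 1; push_cast; ring
    rw [h3] at h2
    exact (h1.trans h2).mono (by omega)

/-- Translation of a set of pieces by twice the difference of two other pieces. -/
theorem translate {ι : Type*} [DecidableEq ι] (p : ι → ℂ) (s : Finset ι) (a b : ι)
    (ha : a ∉ s) (hb : b ∉ s) :
    Chain Move (2 * s.card) p (fun l => if l ∈ s then p l + 2 * (p a - p b) else p l) := by
  induction s using Finset.induction_on with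
  | empty =>
    have : (fun l => if l ∈ (∅ : Finset ι) then p l + 2 * (p a - p b) else p l) = p := by
      ext l; simp
    rw [this]; exact Chain.refl _ _
  | insert i s hi ih =>
    have hai : a ≠ i := fun h => ha (h ▸ Finset.mem_insert_self i s)
    have hbi : b ≠ i := fun h => hb (h ▸ Finset.mem_insert_self i s)
    have has : a ∉ s := fun h => ha (Finset.mem_insert_of_mem h)
    have hbs : b ∉ s := fun h => hb (Finset.mem_insert_of_mem h)
    have h1 := ih has hbs
    rw [Finset.card_insert_of_notMem hi]
    set p1 : ι → ℂ := fun l => if l ∈ s then p l + 2 * (p a - p b) else p l with hp1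
    have e1 : p1 i = p i := by simp [hp1, hi]
    have ea : p1 a = p a := by simp [hp1, has]
    have eb : p1 b = p b := by simp [hp1, hbs]
    have m1 := Move.jump p1 i b (Ne.symm hbi)
    set p2 := update p1 i (2 * p1 b - p1 i) with hp2
    have m2 := Move.jump p2 i a (Ne.symm hai)
    have h3 : update p2 i (2 * p2 a - p2 i)
        = (fun l => if l ∈ insert i s then p l + 2 * (p a - p b) else p l) := by
      ext l
      by_cases hl : l = i
      · subst hl
        have : p2 a = p a := by rw [hp2, update_of_ne hai, ea]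
        rw [update_self, this, hp2, update_self, e1, eb]
        simp; ring
      · rw [update_of_ne hl, hp2, update_of_ne hl, hp1]
        simp [Finset.mem_insert, hl]
    rw [h3] at m2
    exact ((h1.step m1).step m2).mono (by omega)

end Pool.Agent.X184.RM
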