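import Pool.Agent.X184.RM.A

/-!
# Three simulations: paths, antipodal pairs, partial sums
-/

namespace Pool.Agent.X184.RM

open Finset Function

/-! ### Paths -/

def RelPath {r : ℕ} (Q : Fin (r + 1) → ℂ) (y : Fin r → ℂ) : Prop :=
  ∀ i : Fin r, Q i.castSucc - Q i.succ = y i

theorem seg_lo {r : ℕ} {Q : Fin (r + 1) → ℂ} {y : Fin r → ℂ} (h : RelPath Q y) (i : Fin r)
    (δ : ℂ) :
    RelPath (fun l => if l ∈ univ.filter (fun l : Fin (r + 1) => l.val ≤ i.val) then Q l + δ else Q l)
      (update y i (y i + δ)) := by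
  intro j
  have hj := h j
  by_cases hji : j = i
  · subst hji
    have h1 : j.castSucc ∈ univ.filter (fun l : Fin (r + 1) => l.val ≤ j.val) := by simp
    have h2 : j.succ ∉ univ.filter (fun l : Fin (r + 1) => l.val ≤ j.val) := by simp
    simp only [h1, h2, if_true, if_false, update_self]
    linear_combination hj
  · have hne : j.val ≠ i.val := fun h => hji (Fin.ext h)
    rw [update_of_ne hji]
    rcases lt_or_gt_of_ne hne with hlt | hgt
    · have h1 : j.castSucc ∈ univ.filter (fun l : Fin (r + 1) => l.val ≤ i.val) := by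
        simp only [mem_filter, mem_univ, true_and, Fin.val_castSucc]; omega
      have h2 : j.succ ∈ univ.filter (fun l : Fin (r + 1) => l.val ≤ i.val) := by
        simp only [mem_filter, mem_univ, true_and, Fin.val_succ]; omega
      simp only [h1, h2, if_true]
      linear_combination hj
    · have h1 : j.castSucc ∉ univ.filter (fun l : Fin (r + 1) => l.val ≤ i.val) := by
        simp only [mem_filter, mem_univ, true_and, Fin.val_castSucc]; omega
      have h2 : j.succ ∉ univ.filter (fun l : Fin (r + 1) => l.val ≤ i.val) := by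
        simp only [mem_filter, mem_univ, true_and, Fin.val_succ]; omega
      simp only [h1, h2, if_false]
      exact hj

theorem seg_hi {r : ℕ} {Q : Fin (r + 1) → ℂ} {y : Fin r → ℂ} (h : RelPath Q y) (i : Fin r)
    (δ : ℂ) :
    RelPath (fun l => if l ∈ univ.filter (fun l : Fin (r + 1) => i.val < l.val) then Q l + δ else Q l)
      (update y i (y i - δ)) := by
  intro j
  have hj := h j
  by_cases hji : j = i
  · subst hji
    have h1 : j.castSucc ∉ univ.filter (fun l : Fin (r + 1) => j.val < l.val) := by simp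
    have h2 : j.succ ∈ univ.filter (fun l : Fin (r + 1) => j.val < l.val) := by simp
    simp only [h1, h2, if_true, if_false, update_self]
    linear_combination hj
  · have hne : j.val ≠ i.val := fun h => hji (Fin.ext h)
    rw [update_of_ne hji]
    rcases lt_or_gt_of_ne hne with hlt | hgt
    · have h1 : j.castSucc ∉ univ.filter (fun l : Fin (r + 1) => i.val < l.val) := by
        simp only [mem_filter, mem_univ, true_and, Fin.val_castSucc]; omega
      have h2 : j.succ ∉ univ.filter (fun l : Fin (r + 1) => i.val < l.val) := by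
        simp only [mem_filter, mem_univ, true_and, Fin.val_succ]; omega
      simp only [h1, h2, if_false]
      exact hj
    · have h1 : j.castSucc ∈ univ.filter (fun l : Fin (r + 1) => i.val < l.val) := by
        simp only [mem_filter, mem_univ, true_and, Fin.val_castSucc]; omega
      have h2 : j.succ ∈ univ.filter (fun l : Fin (r + 1) => i.val < l.val) := by
        simp only [mem_filter, mem_univ, true_and, Fin.val_succ]; omega
      simp only [h1, h2, if_true]
      linear_combination hj

theorem card_le_fin {r : ℕ} (s : Finset (Fin (r + 1))) : s.card ≤ r + 1 := by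
  simpa using Finset.card_le_univ s

/-- one elementary operation `y i += 2 (Q a - Q b)` with `{a, b}` the end points of the `k`-th
edge. -/
theorem path_add {r : ℕ} {Q : Fin (r + 1) → ℂ} {y : Fin r → ℂ} (h : RelPath Q y) (i k : Fin r)
    (hik : i ≠ k) (t : Bool) :
    ∃ Q', Chain Move (2 * (r + 1)) Q Q' ∧
      RelPath Q' (update y i (y i + (if t then 2 * y k else - (2 * y k)))) := by
  have hk := h k
  have hne : i.val ≠ k.val := fun h => hik (Fin.ext h)
  rcases lt_or_gt_of_ne hne with hlt | hgt
  · -- `i < k`: translate the initial segment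
    set s := univ.filter (fun l : Fin (r + 1) => l.val ≤ i.val) with hs
    have h1 : k.castSucc ∉ s := by
      simp only [hs, mem_filter, mem_univ, true_and, Fin.val_castSucc]; omega
    have h2 : k.succ ∉ s := by
      simp only [hs, mem_filter, mem_univ, true_and, Fin.val_succ]; omega
    cases t with
    | true =>
      refine ⟨_, (translate Q s k.castSucc k.succ h1 h2).mono
        (Nat.mul_le_mul_left 2 (card_le_fin s)), ?_⟩
      have := seg_lo h i (2 * (Q k.castSucc - Q k.succ))
      rw [hk] at this ⊢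
      simpa [hs] using this
    | false =>
      refine ⟨_, (translate Q s k.succ k.castSucc h2 h1).mono
        (Nat.mul_le_mul_left 2 (card_le_fin s)), ?_⟩
      have := seg_lo h i (2 * (Q k.succ - Q k.castSucc))
      have e : 2 * (Q k.succ - Q k.castSucc) = -(2 * y k) := by rw [← hk]; ring
      rw [e] at this ⊢
      simpa [hs] using this
  · set s := univ.filter (fun l : Fin (r + 1) => i.val < l.val) with hs
    have h1 : k.castSucc ∉ s := by
      simp only [hs, mem_filter, mem_univ, true_and, Fin.val_castSucc]; omega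
    have h2 : k.succ ∉ s := by
      simp only [hs, mem_filter, mem_univ, true_and, Fin.val_succ]; omega
    cases t with
    | true =>
      refine ⟨_, (translate Q s k.succ k.castSucc h2 h1).mono
        (Nat.mul_le_mul_left 2 (card_le_fin s)), ?_⟩
      have := seg_hi h i (2 * (Q k.succ - Q k.castSucc))
      have e : 2 * (Q k.succ - Q k.castSucc) = -(2 * y k) := by rw [← hk]; ring
      rw [e] at this ⊢
      have e2 : y i - -(2 * y k) = y i + 2 * y k := by ring
      rw [e2] at this
      simpa [hs] using this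
    | false =>
      refine ⟨_, (translate Q s k.castSucc k.succ h1 h2).mono
        (Nat.mul_le_mul_left 2 (card_le_fin s)), ?_⟩
      have := seg_hi h i (2 * (Q k.castSucc - Q k.succ))
      rw [hk] at this ⊢
      have e2 : y i - (2 * y k) = y i + -(2 * y k) := by ring
      rw [e2] at this
      simpa [hs] using this

theorem path_neg {r : ℕ} {Q : Fin (r + 1) → ℂ} {y : Fin r → ℂ} (h : RelPath Q y) (i : Fin r) :
    ∃ Q', Chain Move (2 * (r + 1)) Q Q' ∧ RelPath Q' (update y i (- y i)) := by
  set s := univ.filter (fun l : Fin (r + 1) => l.val < i.val) with hs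
  have h1 : i.castSucc ∉ s := by simp [hs]
  have h2 : i.succ ∉ s := by
    simp only [hs, mem_filter, mem_univ, true_and, Fin.val_succ]; omega
  have hcard : s.card + 1 ≤ r + 1 := by
    have : (insert i.succ s).card ≤ r + 1 := card_le_fin _
    rwa [Finset.card_insert_of_notMem h2] at this
  have hc := translate Q s i.succ i.castSucc h2 h1
  set Q1 : Fin (r + 1) → ℂ := fun l => if l ∈ s then Q l + 2 * (Q i.succ - Q i.castSucc) else Q l
    with hQ1
  have hne : i.castSucc ≠ i.succ := (Fin.castSucc_lt_succ).ne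
  have hm := Move.jump Q1 i.castSucc i.succ hne
  have e1 : Q1 i.castSucc = Q i.castSucc := by simp only [hQ1, h1, if_false]
  have e2 : Q1 i.succ = Q i.succ := by simp only [hQ1, h2, if_false]
  refine ⟨_, (hc.step hm).mono (by omega), ?_⟩
  intro j
  have hj := h j
  have hi := h i
  by_cases hji : j = i
  · subst hji
    rw [update_self, update_self, update_of_ne hne.symm, e1, e2]
    linear_combination -hj
  · have hnv : j.val ≠ i.val := fun h => hji (Fin.ext h)
    rw [update_of_ne hji]
    have hjc : j.castSucc ≠ i.castSucc := fun h => hji (Fin.castSucc_injective r h)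
    rw [update_of_ne hjc]
    rcases lt_or_gt_of_ne hnv with hlt | hgt
    · have m1 : j.castSucc ∈ s := by
        simp only [hs, mem_filter, mem_univ, true_and, Fin.val_castSucc]; omega
      by_cases hjs : j.succ = i.castSucc
      · rw [hjs, update_self, e1, e2]
        simp only [hQ1, m1, if_true]
        rw [hjs] at hj
        linear_combination hj
      · rw [update_of_ne hjs]
        have hv : j.val + 1 ≠ i.val := by
          intro h; apply hjs; apply Fin.ext; simp [h]
        have m2 : j.succ ∈ s := by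
          simp only [hs, mem_filter, mem_univ, true_and, Fin.val_succ]; omega
        simp only [hQ1, m1, m2, if_true]
        linear_combination hj
    · have m1 : j.castSucc ∉ s := by
        simp only [hs, mem_filter, mem_univ, true_and, Fin.val_castSucc]; omega
      have m2 : j.succ ∉ s := by
        simp only [hs, mem_filter, mem_univ, true_and, Fin.val_succ]; omega
      have hjs : j.succ ≠ i.castSucc := by
        intro h
        have := congrArg Fin.val h
        simp only [Fin.val_succ, Fin.val_castSucc] at this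
        omega
      rw [update_of_ne hjs]
      simp only [hQ1, m1, m2, if_false]
      exact hj

theorem sim_path {r : ℕ} (Q : Fin (r + 1) → ℂ) (a b : Fin r → ℂ) (h : RelPath Q a)
    (hs : Elem a b) : ∃ Q', Chain Move (2 * (r + 1)) Q Q' ∧ RelPath Q' b := by
  cases hs with
  | add i j hij => simpa using path_add h i j hij true
  | sub i j hij => simpa [sub_eq_add_neg] using path_add h i j hij false
  | neg i => exact path_neg h i

/-! ### Antipodal pairs -/

def RelPair {κ : Type*} (p : κ × Bool → ℂ) (x : κ → ℂ) : Prop :=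
  ∀ j, ∃ b : Bool, p (j, b) = x j ∧ p (j, !b) = - x j

theorem pair_step {κ : Type*} [DecidableEq κ] {p : κ × Bool → ℂ} {x : κ → ℂ} (h : RelPair p x)
    (i j : κ) (hij : i ≠ j) (v : ℂ) (b' : Bool) (h1 : p (j, b') = v) (h2 : p (j, !b') = - v) :
    ∃ p', Chain Move 2 p p' ∧ RelPair p' (update x i (x i + 2 * v)) := by
  obtain ⟨b, hb1, hb2⟩ := h i
  have n1 : ((i, b) : κ × Bool) ≠ (j, !b') := fun h => hij (congrArg Prod.fst h)
  have n2 : ((i, !b) : κ × Bool) ≠ (j, b') := fun h => hij (congrArg Prod.fst h)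
  have n3 : ((j, b') : κ × Bool) ≠ (i, b) := fun h => hij (congrArg Prod.fst h).symm
  have n4 : ((i, !b) : κ × Bool) ≠ (i, b) := by
    intro h; have := congrArg Prod.snd h; cases b <;> simp at this
  have m1 := Move.jump p (i, b) (j, !b') n1
  set p1 := update p (i, b) (2 * p (j, !b') - p (i, b)) with hp1
  have m2 := Move.jump p1 (i, !b) (j, b') n2
  refine ⟨_, ((Chain.refl 0 p).step m1).step m2, ?_⟩
  intro l
  by_cases hl : l = i
  · subst hl
    refine ⟨!b, ?_, ?_⟩
    · rw [update_self, update_self, hp1, update_of_ne n3, update_of_ne n4, h1, hb2]; ring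
    · rw [Bool.not_not, update_of_ne n4.symm, update_self, hp1, update_self, h2, hb1]; ring
  · obtain ⟨c, hc1, hc2⟩ := h l
    have k1 : ∀ (c c' : Bool), ((l, c) : κ × Bool) ≠ (i, c') :=
      fun c c' h => hl (congrArg Prod.fst h)
    refine ⟨c, ?_, ?_⟩
    · rw [update_of_ne (k1 _ _), hp1, update_of_ne (k1 _ _), update_of_ne hl, hc1]
    · rw [update_of_ne (k1 _ _), hp1, update_of_ne (k1 _ _), update_of_ne hl, hc2]

theorem sim_pair {κ : Type*} [DecidableEq κ] (p : κ × Bool → ℂ) (a b : κ → ℂ) (h : RelPair p a)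
    (hs : Elem a b) : ∃ p', Chain Move 2 p p' ∧ RelPair p' b := by
  cases hs with
  | add i j hij =>
    obtain ⟨b', h1, h2⟩ := h j
    exact pair_step h i j hij (a j) b' h1 h2
  | sub i j hij =>
    obtain ⟨b', h1, h2⟩ := h j
    have := pair_step h i j hij (- a j) (!b') h2 (by rw [Bool.not_not, neg_neg]; exact h1)
    have e : a i + 2 * - a j = a i - 2 * a j := by ring
    rwa [e] at this
  | neg i =>
    refine ⟨p, Chain.refl _ p, ?_⟩
    intro l
    by_cases hl : l = i
    · subst hl
      obtain ⟨c, hc1, hc2⟩ := h l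
      exact ⟨!c, by rw [update_self]; exact hc2, by
        rw [update_self, Bool.not_not, neg_neg]; exact hc1⟩
    · obtain ⟨c, hc1, hc2⟩ := h l
      exact ⟨c, by rw [update_of_ne hl]; exact hc1, by rw [update_of_ne hl]; exact hc2⟩

/-! ### Partial sums -/

def RelSum {r : ℕ} (X : Fin (r + 1) → ℂ) (σ : Fin r → ℂ) : Prop :=
  ∃ τ : ℕ → ℂ, τ 0 = 0 ∧ τ (r + 1) = 0 ∧ (∀ i : Fin r, σ i = τ (i.val + 1)) ∧
    ∀ j : Fin (r + 1), X j = τ (j.val + 1) - τ j.val

theorem sum_lt {r : ℕ} {X : Fin (r + 1) → ℂ} {τ : ℕ → ℂ} (h0 : τ 0 = 0)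
    (hX : ∀ j : Fin (r + 1), X j = τ (j.val + 1) - τ j.val) (b : ℕ) (hb : b ≤ r + 1) :
    ∑ j ∈ univ.filter (fun j : Fin (r + 1) => j.val < b), X j = τ b := by
  rw [Finset.sum_filter]
  have h1 : ∀ j : Fin (r + 1), (if j.val < b then X j else 0)
      = (fun m : ℕ => if m < b then τ (m + 1) - τ m else 0) j.val := by
    intro j; simp only [hX]
  rw [Finset.sum_congr rfl (fun j _ => h1 j),
    Fin.sum_univ_eq_sum_range (fun m : ℕ => if m < b then τ (m + 1) - τ m else 0) (r + 1),
    ← Finset.sum_filter]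
  have h2 : (range (r + 1)).filter (fun m => m < b) = range b := by
    ext m; simp only [mem_filter, mem_range]; omega
  rw [h2, Finset.sum_range_sub, h0, sub_zero]

theorem sum_ge {r : ℕ} {X : Fin (r + 1) → ℂ} {τ : ℕ → ℂ} (h0 : τ 0 = 0) (h1 : τ (r + 1) = 0)
    (hX : ∀ j : Fin (r + 1), X j = τ (j.val + 1) - τ j.val) (b : ℕ) (hb : b ≤ r + 1) :
    ∑ j ∈ univ.filter (fun j : Fin (r + 1) => b ≤ j.val), X j = - τ b := by
  have ht := sum_lt h0 hX (r + 1) le_rfl
  have hb' := sum_lt h0 hX b hb
  have hall : univ.filter (fun j : Fin (r + 1) => j.val < r + 1) = univ := by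
    ext j; have := j.2; simp; omega
  rw [hall, h1] at ht
  have hsplit := Finset.sum_filter_add_sum_filter_not univ (fun j : Fin (r + 1) => j.val < b) X
  rw [ht, hb'] at hsplit
  have hneg : univ.filter (fun j : Fin (r + 1) => ¬ j.val < b)
      = univ.filter (fun j : Fin (r + 1) => b ≤ j.val) := by
    ext j; simp
  rw [hneg] at hsplit
  linear_combination hsplit

theorem relSum_upd {r : ℕ} {X X' : Fin (r + 1) → ℂ} {σ : Fin r → ℂ} {τ : ℕ → ℂ} (h0 : τ 0 = 0)
    (h1 : τ (r + 1) = 0) (hσ : ∀ i : Fin r, σ i = τ (i.val + 1))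
    (hX : ∀ j : Fin (r + 1), X j = τ (j.val + 1) - τ j.val) (i : Fin r) (δ : ℂ)
    (e1 : X' i.castSucc = X i.castSucc + δ) (e2 : X' i.succ = X i.succ - δ)
    (e3 : ∀ j, j ≠ i.castSucc → j ≠ i.succ → X' j = X j) :
    RelSum X' (update σ i (σ i + δ)) := by
  refine ⟨update τ (i.val + 1) (τ (i.val + 1) + δ), ?_, ?_, ?_, ?_⟩
  · rw [update_of_ne (by omega)]; exact h0
  · rw [update_of_ne (by have := i.2; omega)]; exact h1
  · intro k
    by_cases hk : k = i
    · subst hk; rw [update_self, update_self, hσ]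
    · have : k.val ≠ i.val := fun h => hk (Fin.ext h)
      rw [update_of_ne hk, update_of_ne (by omega)]; exact hσ k
  · intro j
    by_cases hj1 : j = i.castSucc
    · subst hj1
      rw [e1, hX]
      simp only [Fin.val_castSucc]
      rw [update_self, update_of_ne (by omega)]; ring
    · by_cases hj2 : j = i.succ
      · subst hj2
        rw [e2, hX]
        simp only [Fin.val_succ]
        rw [update_self, update_of_ne (by omega)]; ring
      · rw [e3 j hj1 hj2, hX]
        have n1 : j.val ≠ i.val := fun h => hj1 (Fin.ext (by simpa using h))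
        have n2 : j.val ≠ i.val + 1 := fun h => hj2 (Fin.ext (by simpa using h))
        rw [update_of_ne (by omega), update_of_ne (by omega)]

/-- two consecutive entries are updated -/
theorem double_upd {r : ℕ} (X : Fin (r + 1) → ℂ) (i : Fin r) (s1 s2 : Finset (Fin (r + 1)))
    (a1 : i.castSucc ∉ s1) (a2 : i.succ ∉ s2) (a3 : i.castSucc ∉ s2)
    (c1 c2 ε1 ε2 : ℤ) (h1 : c1 = 1 ∨ c1 = -1) (h2 : c2 = 1 ∨ c2 = -1) (h3 : ε1 = 1 ∨ ε1 = -1)
    (h4 : ε2 = 1 ∨ ε2 = -1) :
    ∃ X', Chain Elem (2 * (r + 2)) X X' ∧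
      X' i.castSucc = ε1 * X i.castSucc + 2 * (c1 * ∑ j ∈ s1, X j) ∧
      X' i.succ = ε2 * X i.succ + 2 * (c2 * ∑ j ∈ s2, X j) ∧
      ∀ j, j ≠ i.castSucc → j ≠ i.succ → X' j = X j := by
  have hne : i.castSucc ≠ i.succ := (Fin.castSucc_lt_succ).ne
  have u1 := upd_gen X i.castSucc s1 a1 (fun _ => c1) (fun _ _ => Or.inr h1) ε1 h3
  set X1 := update X i.castSucc (ε1 * X i.castSucc + 2 * ∑ j ∈ s1, (c1 : ℂ) * X j) with hX1
  have u2 := upd_gen X1 i.succ s2 a2 (fun _ => c2) (fun _ _ => Or.inr h2) ε2 h4
  have hs : ∑ j ∈ s2, (c2 : ℂ) * X1 j = c2 * ∑ j ∈ s2, X j := by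
    rw [Finset.mul_sum]
    apply Finset.sum_congr rfl
    intro j hj
    have : j ≠ i.castSucc := fun h => a3 (h ▸ hj)
    rw [hX1, update_of_ne this]
  have hs1 : ∑ j ∈ s1, (c1 : ℂ) * X j = c1 * ∑ j ∈ s1, X j := by
    rw [Finset.mul_sum]
  refine ⟨_, (u1.trans u2).mono ?_, ?_, ?_, ?_⟩
  · have := card_le_fin s1
    have := card_le_fin s2
    omega
  · rw [update_of_ne hne, hX1, update_self, hs1]
  · rw [update_self, hs, hX1, update_of_ne hne.symm]
  · intro j hj1 hj2
    rw [update_of_ne hj2, hX1, update_of_ne hj1]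

theorem sum_add {r : ℕ} {X : Fin (r + 1) → ℂ} {σ : Fin r → ℂ} (h : RelSum X σ) (i k : Fin r)
    (hik : i ≠ k) (t : ℤ) (ht : t = 1 ∨ t = -1) :
    ∃ X', Chain Elem (2 * (r + 2)) X X' ∧ RelSum X' (update σ i (σ i + 2 * (t * σ k))) := by
  obtain ⟨τ, h0, h1, hσ, hX⟩ := h
  have hne : i.val ≠ k.val := fun h => hik (Fin.ext h)
  have ht' : -t = 1 ∨ -t = -1 := by rcases ht with h | h <;> subst h <;> simp
  have hkr := k.2
  rcases lt_or_gt_of_ne hne with hlt | hgt
  · -- i < k
    set s := univ.filter (fun j : Fin (r + 1) => k.val + 1 ≤ j.val) with hs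
    have b1 : i.castSucc ∉ s := by
      simp only [hs, mem_filter, mem_univ, true_and, Fin.val_castSucc]; omega
    have b2 : i.succ ∉ s := by
      simp only [hs, mem_filter, mem_univ, true_and, Fin.val_succ]; omega
    have hsum := sum_ge h0 h1 hX (k.val + 1) (by omega)
    obtain ⟨X', hc, e1, e2, e3⟩ := double_upd X i s s b1 b2 b1 (-t) t 1 1 ht' ht
      (Or.inl rfl) (Or.inl rfl)
    refine ⟨X', hc, ?_⟩
    rw [← hs] at hsum
    rw [hsum] at e1 e2
    apply relSum_upd h0 h1 hσ hX i _ _ _ e3
    · rw [e1, hσ k]; push_cast; ring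
    · rw [e2, hσ k]; push_cast; ring
  · set s := univ.filter (fun j : Fin (r + 1) => j.val < k.val + 1) with hs
    have b1 : i.castSucc ∉ s := by
      simp only [hs, mem_filter, mem_univ, true_and, Fin.val_castSucc]; omega
    have b2 : i.succ ∉ s := by
      simp only [hs, mem_filter, mem_univ, true_and, Fin.val_succ]; omega
    have hsum := sum_lt h0 hX (k.val + 1) (by omega)
    obtain ⟨X', hc, e1, e2, e3⟩ := double_upd X i s s b1 b2 b1 t (-t) 1 1 ht ht'
      (Or.inl rfl) (Or.inl rfl)
    refine ⟨X', hc, ?_⟩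
    rw [← hs] at hsum
    rw [hsum] at e1 e2
    apply relSum_upd h0 h1 hσ hX i _ _ _ e3
    · rw [e1, hσ k]; push_cast; ring
    · rw [e2, hσ k]; push_cast; ring

theorem sum_neg' {r : ℕ} {X : Fin (r + 1) → ℂ} {σ : Fin r → ℂ} (h : RelSum X σ) (i : Fin r) :
    ∃ X', Chain Elem (2 * (r + 2)) X X' ∧ RelSum X' (update σ i (- σ i)) := by
  obtain ⟨τ, h0, h1, hσ, hX⟩ := h
  have hir := i.2
  set s1 := univ.filter (fun j : Fin (r + 1) => j.val < i.val) with hs1
  set s2 := univ.filter (fun j : Fin (r + 1) => i.val + 2 ≤ j.val) with hs2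
  have b1 : i.castSucc ∉ s1 := by
    simp only [hs1, mem_filter, mem_univ, true_and, Fin.val_castSucc]; omega
  have b2 : i.succ ∉ s2 := by
    simp only [hs2, mem_filter, mem_univ, true_and, Fin.val_succ]; omega
  have b3 : i.castSucc ∉ s2 := by
    simp only [hs2, mem_filter, mem_univ, true_and, Fin.val_castSucc]; omega
  have hsum1 := sum_lt h0 hX i.val (by omega)
  have hsum2 := sum_ge h0 h1 hX (i.val + 2) (by omega)
  rw [← hs1] at hsum1
  rw [← hs2] at hsum2
  obtain ⟨X', hc, e1, e2, e3⟩ := double_upd X i s1 s2 b1 b2 b3 (-1) (-1) (-1) (-1)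
    (Or.inr rfl) (Or.inr rfl) (Or.inr rfl) (Or.inr rfl)
  refine ⟨X', hc, ?_⟩
  rw [hsum1] at e1
  rw [hsum2] at e2
  have hx1 := hX i.castSucc
  have hx2 := hX i.succ
  simp only [Fin.val_castSucc] at hx1
  simp only [Fin.val_succ] at hx2
  have e : - σ i = σ i + (- (2 * σ i)) := by ring
  rw [e]
  apply relSum_upd h0 h1 hσ hX i _ _ _ e3
  · rw [e1, hσ i, hx1]; push_cast; ring
  · rw [e2, hσ i, hx2]; push_cast; ring

theorem sim_sum {r : ℕ} (X : Fin (r + 1) → ℂ) (a b : Fin r → ℂ) (h : RelSum X a)
    (hs : Elem a b) : ∃ X', Chain Elem (2 * (r + 2)) X X' ∧ RelSum X' b := by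
  cases hs with
  | add i j hij => simpa using sum_add h i j hij 1 (Or.inl rfl)
  | sub i j hij => simpa [sub_eq_add_neg] using sum_add h i j hij (-1) (Or.inr rfl)
  | neg i => exact sum_neg' h i

end Pool.Agent.X184.RM
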