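import Pool.Agent.X184.RM.A

/-!
# The elimination: multiplying a family by the unit
-/

namespace Pool.Agent.X184.RM

open Finset Function

theorem updE_add {α κ : Type*} [DecidableEq κ] (e : α → κ) (y : κ → ℂ) (i : κ) (s : Finset α)
    (hi : ∀ j ∈ s, i ≠ e j)
    (c : α → ℤ) (hc : ∀ j ∈ s, c j = 0 ∨ c j = 1 ∨ c j = -1) :
    Chain Elem s.card y (update y i (y i + 2 * ∑ j ∈ s, (c j : ℂ) * y (e j))) := by
  classical
  induction s using Finset.induction_on with
  | empty =>
    have : update y i (y i + 2 * ∑ j ∈ (∅ : Finset α), (c j : ℂ) * y (e j)) = y := by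
      simp
    rw [this]
    exact Chain.refl _ _
  | insert a s ha ih =>
    have hia : i ≠ e a := hi a (Finset.mem_insert_self a s)
    have h1 := ih (fun j hj => hi j (Finset.mem_insert_of_mem hj))
      (fun j hj => hc j (Finset.mem_insert_of_mem hj))
    rw [Finset.card_insert_of_notMem ha]
    set y1 := update y i (y i + 2 * ∑ j ∈ s, (c j : ℂ) * y (e j)) with hy1
    have hy1a : y1 (e a) = y (e a) := by rw [hy1, update_of_ne (Ne.symm hia)]
    have hy1i : y1 i = y i + 2 * ∑ j ∈ s, (c j : ℂ) * y (e j) := by rw [hy1, update_self]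
    have hup : ∀ v, update y1 i v = update y i v := by
      intro v; rw [hy1, update_idem]
    rcases hc a (Finset.mem_insert_self a s) with h0 | h0 | h0
    · have : update y i (y i + 2 * ∑ j ∈ insert a s, (c j : ℂ) * y (e j)) = y1 := by
        rw [Finset.sum_insert ha, h0, hy1]; simp
      rw [this]
      exact h1.mono (by omega)
    · have : update y i (y i + 2 * ∑ j ∈ insert a s, (c j : ℂ) * y (e j))
          = update y1 i (y1 i + 2 * y1 (e a)) := by
        rw [Finset.sum_insert ha, h0, hup, hy1i, hy1a]; congr 1; push_cast; ring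
      rw [this]
      exact Chain.step h1 (Elem.add y1 i (e a) hia)
    · have : update y i (y i + 2 * ∑ j ∈ insert a s, (c j : ℂ) * y (e j))
          = update y1 i (y1 i - 2 * y1 (e a)) := by
        rw [Finset.sum_insert ha, h0, hup, hy1i, hy1a]; congr 1; push_cast; ring
      rw [this]
      exact Chain.step h1 (Elem.sub y1 i (e a) hia)

theorem updE_gen {α κ : Type*} [DecidableEq κ] (e : α → κ) (y : κ → ℂ) (i : κ) (s : Finset α)
    (hi : ∀ j ∈ s, i ≠ e j)
    (c : α → ℤ) (hc : ∀ j ∈ s, c j = 0 ∨ c j = 1 ∨ c j = -1) (ε : ℤ) (hε : ε = 1 ∨ ε = -1) :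
    Chain Elem (s.card + 1) y (update y i (ε * y i + 2 * ∑ j ∈ s, (c j : ℂ) * y (e j))) := by
  rcases hε with h | h
  · subst h
    have := (updE_add e y i s hi c hc).mono (Nat.le_succ _)
    simpa using this
  · subst h
    set y1 := update y i (- y i) with hy1
    have h1 : Chain Elem 1 y y1 := Chain.single (Elem.neg y i)
    have h2 := updE_add e y1 i s hi c hc
    have hs : ∑ j ∈ s, (c j : ℂ) * y1 (e j) = ∑ j ∈ s, (c j : ℂ) * y (e j) := by
      apply Finset.sum_congr rfl
      intro j hj
      rw [hy1, update_of_ne (hi j hj).symm]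
    have h3 : update y1 i (y1 i + 2 * ∑ j ∈ s, (c j : ℂ) * y1 (e j))
        = update y i (((-1 : ℤ) : ℂ) * y i + 2 * ∑ j ∈ s, (c j : ℂ) * y (e j)) := by
      rw [hs, hy1, update_idem, update_self]; congr 1; push_cast; ring
    rw [h3] at h2
    exact (h1.trans h2).mono (by omega)

/-- integer coefficients for the values at even places -/
theorem coefs_even (n : ℕ) (g h : ℕ → ℂ) (h0 : h 0 = 0)
    (hrec : ∀ m, h m + h (m + 2) = g (m + 1)) :
    ∀ t : ℕ, 2 * t ≤ n + 1 → ∃ c : ℕ → ℤ, (∀ j, c j = 0 ∨ c j = 1 ∨ c j = -1) ∧
      (∀ j, c j ≠ 0 → j % 2 = 1 ∧ j < 2 * t) ∧ h (2 * t) = ∑ j ∈ Icc 1 n, (c j : ℂ) * g j := by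
  intro t
  induction t with
  | zero =>
    intro _
    exact ⟨fun _ => 0, fun _ => Or.inl rfl, fun j hj => absurd rfl hj, by simp [h0]⟩
  | succ t ih =>
    intro ht
    obtain ⟨c, hc1, hc2, hc3⟩ := ih (by omega)
    have hct : c (2 * t + 1) = 0 := by
      by_contra hne
      have := hc2 _ hne
      omega
    refine ⟨fun j => if j = 2 * t + 1 then 1 else - c j, ?_, ?_, ?_⟩
    · intro j
      by_cases hj : j = 2 * t + 1
      · simp [hj]
      · simp only [hj, if_false]
        rcases hc1 j with h | h | h <;> simp [h]
    · intro j hj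
      by_cases hj' : j = 2 * t + 1
      · omega
      · simp only [hj', if_false] at hj
        have := hc2 j (by simpa using hj)
        omega
    · have hr := hrec (2 * t)
      have e1 : h (2 * (t + 1)) = g (2 * t + 1) - h (2 * t) := by
        have : 2 * (t + 1) = 2 * t + 2 := by ring
        rw [this]; linear_combination hr
      rw [e1, hc3]
      have hmem : 2 * t + 1 ∈ Icc 1 n := by simp only [mem_Icc]; omega
      have e2 : ∀ j ∈ Icc 1 n, (((if j = 2 * t + 1 then (1 : ℤ) else - c j) : ℤ) : ℂ) * g j
          = (if j = 2 * t + 1 then g j else 0) - (c j : ℂ) * g j := by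
        intro j _
        by_cases hj : j = 2 * t + 1
        · subst hj; simp [hct]
        · simp [hj]
      rw [Finset.sum_congr rfl e2, Finset.sum_sub_distrib, Finset.sum_ite_eq' (Icc 1 n) (2 * t + 1) g,
        if_pos hmem]

/-- integer coefficients for the sums of two consecutive values -/
theorem coefs_tail (n : ℕ) (g h : ℕ → ℂ) (u : ℂ) (hu : ∀ m, u * g m = g m + 2 * h m)
    (hrec : ∀ m, h m + h (m + 2) = g (m + 1)) (hend : h n + h (n + 1) = 0) :
    ∀ d : ℕ, d ≤ n → ∃ c : ℕ → ℤ, (∀ j, c j = 0 ∨ c j = 1 ∨ c j = -1) ∧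
      (∀ j, c j ≠ 0 → n - d < j) ∧
      h (n - d) + h (n - d + 1) = ∑ j ∈ Icc 1 n, (c j : ℂ) * (u * g j) := by
  intro d
  induction d with
  | zero =>
    intro _
    exact ⟨fun _ => 0, fun _ => Or.inl rfl, fun j hj => absurd rfl hj, by simp [hend]⟩
  | succ d ih =>
    intro hd
    obtain ⟨c, hc1, hc2, hc3⟩ := ih (by omega)
    obtain ⟨m, hm⟩ : ∃ m, n - (d + 1) = m := ⟨_, rfl⟩
    have hm1 : n - d = m + 1 := by omega
    rw [hm1] at hc2 hc3
    rw [hm]
    have hct : c (m + 1) = 0 := by
      by_contra hne
      have := hc2 _ hne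
      omega
    refine ⟨fun j => if j = m + 1 then 1 else - c j, ?_, ?_, ?_⟩
    · intro j
      by_cases hj : j = m + 1
      · simp [hj]
      · simp only [hj, if_false]
        rcases hc1 j with h | h | h <;> simp [h]
    · intro j hj
      by_cases hj' : j = m + 1
      · omega
      · simp only [hj', if_false] at hj
        have := hc2 j (by simpa using hj)
        omega
    · have hr := hrec m
      have hu1 := hu (m + 1)
      have e1 : h m + h (m + 1) = u * g (m + 1) - (h (m + 1) + h (m + 1 + 1)) := by
        have e : h (m + 1 + 1) = h (m + 2) := rfl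
        rw [e]; linear_combination hr - hu1
      rw [e1, hc3]
      have hmem : m + 1 ∈ Icc 1 n := by simp only [mem_Icc]; omega
      have e2 : ∀ j ∈ Icc 1 n, (((if j = m + 1 then (1 : ℤ) else - c j) : ℤ) : ℂ) * (u * g j)
          = (if j = m + 1 then u * g j else 0) - (c j : ℂ) * (u * g j) := by
        intro j _
        by_cases hj : j = m + 1
        · subst hj; simp [hct]
        · simp [hj]
      rw [Finset.sum_congr rfl e2, Finset.sum_sub_distrib,
        Finset.sum_ite_eq' (Icc 1 n) (m + 1) (fun j => u * g j), if_pos hmem]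

theorem algorithm {κ : Type*} [DecidableEq κ] (y : κ → ℂ) (n : ℕ) (e : ℕ → κ)
    (he : ∀ a ∈ Icc 1 n, ∀ b ∈ Icc 1 n, e a = e b → a = b) (u : ℂ) (g h : ℕ → ℂ)
    (hg : ∀ m ∈ Icc 1 n, y (e m) = g m)
    (hu : ∀ m, u * g m = g m + 2 * h m) (h0 : h 0 = 0)
    (hrec : ∀ m, h m + h (m + 2) = g (m + 1)) (hend : h n + h (n + 1) = 0) :
    ∃ y', Chain Elem (n * n) y y' ∧ (∀ m ∈ Icc 1 n, y' (e m) = u * y (e m)) ∧
      ∀ k, (∀ m ∈ Icc 1 n, k ≠ e m) → y' k = y k := by
  classical
  set st : Finset ℕ → κ → ℂ := fun D k => if k ∈ D.image e then u * y k else y k with hst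
  have st_val : ∀ D ⊆ Icc 1 n, ∀ m ∈ Icc 1 n, st D (e m) = if m ∈ D then u * g m else g m := by
    intro D hD m hm
    have : e m ∈ D.image e ↔ m ∈ D := by
      constructor
      · intro h
        obtain ⟨a, ha, hae⟩ := Finset.mem_image.mp h
        have := he a (hD ha) m hm hae
        rwa [this] at ha
      · intro h; exact Finset.mem_image_of_mem e h
    simp only [hst, this, hg m hm]
  have st_empty : st ∅ = y := by ext k; simp [hst]
  -- one step
  have one : ∀ D ⊆ Icc 1 n, ∀ m ∈ Icc 1 n, m ∉ D → ∀ (ε : ℤ), (ε = 1 ∨ ε = -1) →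
      ∀ c : ℕ → ℤ, (∀ j, c j = 0 ∨ c j = 1 ∨ c j = -1) → c m = 0 →
      (u * g m = ε * g m + 2 * ∑ j ∈ Icc 1 n, (c j : ℂ) * (if j ∈ D then u * g j else g j)) →
      Chain Elem n (st D) (st (insert m D)) := by
    intro D hD m hm hmD ε hε c hc hcm hid
    have hne : ∀ j ∈ (Icc 1 n).erase m, e m ≠ e j := by
      intro j hj h
      obtain ⟨h1, h2⟩ := Finset.mem_erase.mp hj
      exact h1 (he m hm j h2 h).symm
    have hch := updE_gen e (st D) (e m) ((Icc 1 n).erase m) hne c (fun j _ => hc j) ε hε
    have hcard : ((Icc 1 n).erase m).card + 1 = n := by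
      rw [Finset.card_erase_add_one hm]; simp
    rw [hcard] at hch
    have hsum : ∑ j ∈ (Icc 1 n).erase m, (c j : ℂ) * st D (e j)
        = ∑ j ∈ Icc 1 n, (c j : ℂ) * (if j ∈ D then u * g j else g j) := by
      rw [← Finset.sum_erase (Icc 1 n) (a := m) (by rw [hcm]; simp)]
      apply Finset.sum_congr rfl
      intro j hj
      rw [st_val D hD j (Finset.mem_of_mem_erase hj)]
    have hstm : st D (e m) = g m := by rw [st_val D hD m hm, if_neg hmD]
    have heq : update (st D) (e m)
        (ε * st D (e m) + 2 * ∑ j ∈ (Icc 1 n).erase m, (c j : ℂ) * st D (e j))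
        = st (insert m D) := by
      rw [hsum, hstm, ← hid]
      ext k
      by_cases hk : k = e m
      · subst hk
        have : e m ∈ (insert m D).image e :=
          Finset.mem_image_of_mem e (Finset.mem_insert_self m D)
        rw [update_self]
        simp only [hst, this, if_true, hg m hm]
      · rw [update_of_ne hk]
        have : k ∈ (insert m D).image e ↔ k ∈ D.image e := by
          rw [Finset.image_insert, Finset.mem_insert]
          exact ⟨fun h => h.resolve_left hk, Or.inr⟩
        simp only [hst, this]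
    rw [heq] at hch
    exact hch
  -- phase 1: even indices
  have phase1 : ∀ T : Finset ℕ, (∀ j ∈ T, j ∈ Icc 1 n ∧ j % 2 = 0) →
      Chain Elem (n * T.card) (st ∅) (st T) := by
    intro T
    induction T using Finset.induction_on with
    | empty => intro _; exact Chain.refl _ _
    | insert m T hm ih =>
      intro hT
      have hT' : ∀ j ∈ T, j ∈ Icc 1 n ∧ j % 2 = 0 := fun j hj => hT j (Finset.mem_insert_of_mem hj)
      obtain ⟨hmI, hmE⟩ := hT m (Finset.mem_insert_self m T)
      obtain ⟨t, rfl⟩ : ∃ t, m = 2 * t := ⟨m / 2, by omega⟩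
      have hmI' := Finset.mem_Icc.mp hmI
      obtain ⟨c, hc1, hc2, hc3⟩ := coefs_even n g h h0 hrec t (by omega)
      rw [Finset.card_insert_of_notMem hm]
      refine ((ih hT').trans (one T (fun j hj => (hT' j hj).1) (2 * t) hmI hm 1 (Or.inl rfl) c hc1
        ?_ ?_)).mono (by ring_nf; omega)
      · by_contra hne; have := hc2 _ hne; omega
      · have : ∑ j ∈ Icc 1 n, (c j : ℂ) * (if j ∈ T then u * g j else g j)
            = ∑ j ∈ Icc 1 n, (c j : ℂ) * g j := by
          apply Finset.sum_congr rfl
          intro j _
          by_cases hcj : c j = 0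
          · rw [hcj]; simp
          · have h1 := (hc2 j hcj).1
            have : j ∉ T := by
              intro hjT; have := (hT' j hjT).2; omega
            rw [if_neg this]
        rw [this, ← hc3, hu]; push_cast; ring
  -- phase 2
  set DD : ℕ → Finset ℕ := fun a => (Icc 1 n).filter (fun j => j % 2 = 0 ∨ a < j) with hDD
  have phase2 : ∀ d ≤ n, Chain Elem (n * (DD (n - d)).card) (st ∅) (st (DD (n - d))) := by
    intro d
    induction d with
    | zero =>
      intro _
      apply phase1
      intro j hj
      simp only [hDD, mem_filter] at hj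
      refine ⟨hj.1, ?_⟩
      have := Finset.mem_Icc.mp hj.1
      rcases hj.2 with h | h
      · exact h
      · omega
    | succ d ih =>
      intro hd
      have hih := ih (by omega)
      obtain ⟨m, hm⟩ : ∃ m, n - (d + 1) = m := ⟨_, rfl⟩
      have hm1 : n - d = m + 1 := by omega
      rw [hm1] at hih
      rw [hm]
      by_cases hpar : (m + 1) % 2 = 0
      · have : DD m = DD (m + 1) := by
          ext j
          simp only [hDD, mem_filter]
          constructor
          · rintro ⟨h1, h2⟩
            refine ⟨h1, ?_⟩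
            rcases h2 with h | h
            · exact Or.inl h
            · by_cases hj : j = m + 1
              · left; rw [hj]; exact hpar
              · right; omega
          · rintro ⟨h1, h2⟩
            exact ⟨h1, h2.imp id (fun h => by omega)⟩
        rw [this]; exact hih
      · have hmem : m + 1 ∈ Icc 1 n := by simp only [mem_Icc]; omega
        have hnot : m + 1 ∉ DD (m + 1) := by
          simp only [hDD, mem_filter, not_and, not_or]
          exact fun _ => ⟨hpar, by omega⟩
        have hins : DD m = insert (m + 1) (DD (m + 1)) := by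
          ext j
          simp only [hDD, mem_filter, mem_insert]
          constructor
          · rintro ⟨h1, h2⟩
            by_cases hj : j = m + 1
            · exact Or.inl hj
            · right
              exact ⟨h1, h2.imp id (fun h => by omega)⟩
          · rintro (h | ⟨h1, h2⟩)
            · subst h; exact ⟨hmem, Or.inr (by omega)⟩
            · exact ⟨h1, h2.imp id (fun h => by omega)⟩
        have hsub : DD (m + 1) ⊆ Icc 1 n := Finset.filter_subset _ _
        rw [hins, Finset.card_insert_of_notMem hnot]
        obtain ⟨c2, a1, a2, a3⟩ := coefs_tail n g h u hu hrec hend d (by omega)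
        rw [hm1] at a2 a3
        obtain ⟨t, ht⟩ : ∃ t, m = 2 * t := ⟨m / 2, by omega⟩
        obtain ⟨c1, b1, b2, b3⟩ := coefs_even n g h h0 hrec t (by omega)
        rw [← ht] at b2 b3
        -- c2 is supported beyond `m + 1`, c1 on odd places below `m`
        have hcm1 : c1 (m + 1) = 0 := by
          by_contra hne; have := b2 _ hne; omega
        have hcm2 : c2 (m + 1) = 0 := by
          by_contra hne; have := a2 _ hne; omega
        have hdisj : ∀ j, c1 j = 0 ∨ c2 j = 0 := by
          intro j
          by_contra hcon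
          push_neg at hcon
          have h1 := b2 j hcon.1
          have h2 := a2 j hcon.2
          omega
        refine (hih.trans (one (DD (m + 1)) hsub (m + 1) hmem hnot (-1) (Or.inr rfl)
          (fun j => c1 j + c2 j) ?_ ?_ ?_)).mono (by ring_nf; omega)
        · intro j
          rcases hdisj j with h | h
          · simp only [h, zero_add]; exact a1 j
          · simp only [h, add_zero]; exact b1 j
        · simp only [hcm1, hcm2, add_zero]
        · have hs : ∑ j ∈ Icc 1 n, ((c1 j + c2 j : ℤ) : ℂ) *
              (if j ∈ DD (m + 1) then u * g j else g j)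
              = ∑ j ∈ Icc 1 n, (c1 j : ℂ) * g j + ∑ j ∈ Icc 1 n, (c2 j : ℂ) * (u * g j) := by
            rw [← Finset.sum_add_distrib]
            apply Finset.sum_congr rfl
            intro j hj
            have k1 : (c1 j : ℂ) * (if j ∈ DD (m + 1) then u * g j else g j) = (c1 j : ℂ) * g j := by
              by_cases hcj : c1 j = 0
              · rw [hcj]; simp
              · have h1 := b2 j hcj
                have : j ∉ DD (m + 1) := by
                  simp only [hDD, mem_filter, not_and, not_or]
                  intro _; omega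
                rw [if_neg this]
            have k2 : (c2 j : ℂ) * (if j ∈ DD (m + 1) then u * g j else g j)
                = (c2 j : ℂ) * (u * g j) := by
              by_cases hcj : c2 j = 0
              · rw [hcj]; simp
              · have h1 := a2 j hcj
                have : j ∈ DD (m + 1) := by
                  simp only [hDD, mem_filter]
                  exact ⟨hj, Or.inr h1⟩
                rw [if_pos this]
            push_cast
            rw [add_mul, k1, k2]
          rw [hs, ← b3, ← a3]
          have r1 := hu (m + 1)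
          have r2 := hrec m
          have e : h (m + 1 + 1) = h (m + 2) := rfl
          rw [e]
          push_cast
          linear_combination r1 - 2 * r2
  have hfin := phase2 n le_rfl
  have hall : DD (n - n) = Icc 1 n := by
    ext j
    simp only [hDD, mem_filter, mem_Icc]
    constructor
    · rintro ⟨h1, _⟩; exact h1
    · intro h1; exact ⟨h1, Or.inr (by omega)⟩
  rw [hall, st_empty, Nat.card_Icc, Nat.add_sub_cancel] at hfin
  refine ⟨st (Icc 1 n), hfin, ?_, ?_⟩
  · intro m hm
    rw [st_val _ (Finset.Subset.refl _) m hm, if_pos hm, hg m hm]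
  · intro k hk
    have : k ∉ (Icc 1 n).image e := by
      intro h
      obtain ⟨a, ha, hae⟩ := Finset.mem_image.mp h
      exact hk a ha hae.symm
    simp only [hst, this, if_false]

end Pool.Agent.X184.RM
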