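import Pool.Agent.X184.RM.B
import Pool.Agent.X184.RM.C

/-!
# Odd polygons and pairs of odd polygons
-/

namespace Pool.Agent.X184.RM

open Finset Function

/-- The zigzag enumeration of the powers of `z`. -/
noncomputable def Qf (z : ℂ) (l : ℕ) : ℂ := if l % 2 = 1 then z ^ ((l + 1) / 2) else z⁻¹ ^ (l / 2)

theorem Qf_odd (z : ℂ) (m : ℕ) : Qf z (2 * m + 1) = z ^ (m + 1) := by
  unfold Qf
  rw [if_pos (by omega)]
  congr 1; omega

theorem Qf_even (z : ℂ) (m : ℕ) : Qf z (2 * m) = z⁻¹ ^ m := by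
  unfold Qf
  rw [if_neg (by omega)]
  congr 1; omega

theorem inv_pow_of (z : ℂ) (a b : ℕ) (h : z ^ a * z ^ b = 1) : z⁻¹ ^ b = z ^ a := by
  rw [inv_pow]
  exact inv_eq_of_mul_eq_one_left h

theorem two_families (n : ℕ) (hn : 0 < n) (z : ℂ) (hz : z ^ (2 * n + 1) = 1)
    (hs : z + z⁻¹ ≠ 0) (C1 C2 : ℂ) (y : Fin (2 * n) → ℂ)
    (h1 : ∀ (i : Fin (2 * n)) (m : ℕ), 1 ≤ m → m ≤ n → i.val + 1 = 2 * m →
      y i = C1 * (z ^ m - z⁻¹ ^ m))
    (h2 : ∀ (i : Fin (2 * n)) (m : ℕ), 1 ≤ m → m ≤ n → i.val + 2 * m = 2 * n →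
      y i = C2 * (z ^ m - z⁻¹ ^ m)) :
    ∃ y', Chain Elem (2 * (n * n)) y y' ∧ ∀ i, y' i = (1 + 2 * (z + z⁻¹)⁻¹) * y i := by
  have hz0 : z ≠ 0 := by
    intro h; rw [h, zero_pow (by omega)] at hz; exact zero_ne_one hz
  have hzi : z * z⁻¹ = 1 := mul_inv_cancel₀ hz0
  set w : ℂ := (z + z⁻¹)⁻¹ with hw
  have hwx : w * (z + z⁻¹) = 1 := inv_mul_cancel₀ hs
  set u : ℂ := 1 + 2 * w with hu
  have grec : ∀ m : ℕ, (z ^ m - z⁻¹ ^ m) + (z ^ (m + 2) - z⁻¹ ^ (m + 2))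
      = (z + z⁻¹) * (z ^ (m + 1) - z⁻¹ ^ (m + 1)) := by
    intro m
    have e1 : z⁻¹ * z ^ (m + 1) = z ^ m := by
      rw [pow_succ]; rw [← mul_assoc, mul_comm z⁻¹ (z ^ m), mul_assoc, mul_comm z⁻¹ z, hzi, mul_one]
    have e2 : z * z⁻¹ ^ (m + 1) = z⁻¹ ^ m := by
      rw [pow_succ]; rw [← mul_assoc, mul_comm z (z⁻¹ ^ m), mul_assoc, hzi, mul_one]
    have e3 : z ^ (m + 2) = z * z ^ (m + 1) := by ring
    have e4 : z⁻¹ ^ (m + 2) = z⁻¹ * z⁻¹ ^ (m + 1) := by ring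
    rw [e3, e4]
    linear_combination -e1 + e2
  have hp1 : z⁻¹ ^ (n + 1) = z ^ n :=
    inv_pow_of z n (n + 1) (by rw [← pow_add, ← hz]; congr 1; ring)
  have hp2 : z⁻¹ ^ n = z ^ (n + 1) :=
    inv_pow_of z (n + 1) n (by rw [← pow_add, ← hz]; congr 1; ring)
  have main : ∀ (C : ℂ) (y0 : Fin (2 * n) → ℂ) (e : ℕ → Fin (2 * n)),
      (∀ a ∈ Icc 1 n, ∀ b ∈ Icc 1 n, e a = e b → a = b) →
      (∀ m ∈ Icc 1 n, y0 (e m) = C * (z ^ m - z⁻¹ ^ m)) →
      ∃ y', Chain Elem (n * n) y0 y' ∧ (∀ m ∈ Icc 1 n, y' (e m) = u * y0 (e m)) ∧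
        ∀ k, (∀ m ∈ Icc 1 n, k ≠ e m) → y' k = y0 k := by
    intro C y0 e he hg
    refine algorithm y0 n e he u (fun m => C * (z ^ m - z⁻¹ ^ m))
      (fun m => C * (w * (z ^ m - z⁻¹ ^ m))) hg ?_ ?_ ?_ ?_
    · intro m; rw [hu]; ring
    · simp
    · intro m
      have := grec m
      linear_combination C * w * this + C * (z ^ (m + 1) - z⁻¹ ^ (m + 1)) * hwx
    · rw [hp1, hp2]; ring
  -- first family
  have hpos : 0 < 2 * n := by omega
  set e1 : ℕ → Fin (2 * n) := fun m => ⟨(2 * m - 1) % (2 * n), Nat.mod_lt _ hpos⟩ with he1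
  set e2 : ℕ → Fin (2 * n) := fun m => ⟨(2 * n - 2 * m) % (2 * n), Nat.mod_lt _ hpos⟩ with he2
  have v1 : ∀ m ∈ Icc 1 n, (e1 m).val = 2 * m - 1 := by
    intro m hm
    have := Finset.mem_Icc.mp hm
    simp only [he1]
    exact Nat.mod_eq_of_lt (by omega)
  have v2 : ∀ m ∈ Icc 1 n, (e2 m).val = 2 * n - 2 * m := by
    intro m hm
    have := Finset.mem_Icc.mp hm
    simp only [he2]
    exact Nat.mod_eq_of_lt (by omega)
  have i1 : ∀ a ∈ Icc 1 n, ∀ b ∈ Icc 1 n, e1 a = e1 b → a = b := by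
    intro a ha b hb hab
    have := congrArg Fin.val hab
    rw [v1 a ha, v1 b hb] at this
    have h3 := Finset.mem_Icc.mp ha
    have h4 := Finset.mem_Icc.mp hb
    omega
  have i2 : ∀ a ∈ Icc 1 n, ∀ b ∈ Icc 1 n, e2 a = e2 b → a = b := by
    intro a ha b hb hab
    have := congrArg Fin.val hab
    rw [v2 a ha, v2 b hb] at this
    have h3 := Finset.mem_Icc.mp ha
    have h4 := Finset.mem_Icc.mp hb
    omega
  have i12 : ∀ a ∈ Icc 1 n, ∀ b ∈ Icc 1 n, e1 a ≠ e2 b := by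
    intro a ha b hb hab
    have := congrArg Fin.val hab
    rw [v1 a ha, v2 b hb] at this
    have h3 := Finset.mem_Icc.mp ha
    have h4 := Finset.mem_Icc.mp hb
    omega
  obtain ⟨y1, c1, m1, o1⟩ := main C1 y e1 i1 (by
    intro m hm
    have h3 := Finset.mem_Icc.mp hm
    exact h1 _ m h3.1 h3.2 (by rw [v1 m hm]; omega))
  obtain ⟨y2, c2, m2, o2⟩ := main C2 y1 e2 i2 (by
    intro m hm
    have h3 := Finset.mem_Icc.mp hm
    rw [o1 (e2 m) (fun m' hm' h => i12 m' hm' m hm h.symm)]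
    exact h2 _ m h3.1 h3.2 (by rw [v2 m hm]; omega))
  refine ⟨y2, (c1.trans c2).mono (le_of_eq (by ring)), ?_⟩
  intro i
  have hi := i.2
  rcases Nat.even_or_odd' i.val with ⟨t, ht | ht⟩
  · -- even index
    have hm : n - t ∈ Icc 1 n := by simp only [mem_Icc]; omega
    have hie : i = e2 (n - t) := by
      apply Fin.ext; rw [v2 _ hm]; omega
    rw [hie, m2 _ hm, o1 (e2 (n - t)) (fun m' hm' h => i12 m' hm' _ hm h.symm)]
  · have hm : t + 1 ∈ Icc 1 n := by simp only [mem_Icc]; omega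
    have hie : i = e1 (t + 1) := by
      apply Fin.ext; rw [v1 _ hm]; omega
    rw [hie, o2 (e1 (t + 1)) (fun m' hm' h => i12 _ hm m' hm' h), m1 _ hm]

/-- The odd polygon. -/
theorem odd_path (n : ℕ) (hn : 0 < n) (z : ℂ) (hz : z ^ (2 * n + 1) = 1) (hs : z + z⁻¹ ≠ 0) :
    ∃ Q' : Fin (2 * n + 1) → ℂ,
      Chain Move (2 * (2 * n + 1) * (2 * (n * n))) (fun l => Qf z l.val) Q' ∧
      ∃ c : ℂ, ∀ l, Q' l = c + (1 + 2 * (z + z⁻¹)⁻¹) * Qf z l.val := by
  have hz0 : z ≠ 0 := by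
    intro h; rw [h, zero_pow (by omega)] at hz; exact zero_ne_one hz
  have hzi : z * z⁻¹ = 1 := mul_inv_cancel₀ hz0
  set u : ℂ := 1 + 2 * (z + z⁻¹)⁻¹ with hu
  set y : Fin (2 * n) → ℂ := fun i => Qf z i.val - Qf z (i.val + 1) with hy
  have hrel : RelPath (fun l : Fin (2 * n + 1) => Qf z l.val) y := by
    intro i; simp [hy]
  obtain ⟨y', hch, hy'⟩ := two_families n hn z hz hs 1 (z⁻¹ ^ n) y
    (by
      intro i m h1 h2 h3
      obtain ⟨m', rfl⟩ : ∃ m', m = m' + 1 := ⟨m - 1, by omega⟩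
      have e1 : i.val = 2 * m' + 1 := by omega
      have e2 : i.val + 1 = 2 * (m' + 1) := by omega
      simp only [hy]
      rw [e2, Qf_even, e1, Qf_odd, one_mul])
    (by
      intro i m h1 h2 h3
      obtain ⟨k, hk⟩ : ∃ k, n = m + k := ⟨n - m, by omega⟩
      have e1 : i.val = 2 * k := by omega
      have e2 : i.val + 1 = 2 * k + 1 := by omega
      simp only [hy]
      rw [e2, Qf_odd, e1, Qf_even, mul_sub]
      have q1 : z⁻¹ ^ n * z ^ m = z⁻¹ ^ k := by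
        rw [hk, pow_add, mul_comm (z⁻¹ ^ m), mul_assoc, ← mul_pow, mul_comm z⁻¹ z, hzi, one_pow,
          mul_one]
      have q2 : z⁻¹ ^ n * z⁻¹ ^ m = z ^ (k + 1) := by
        rw [← pow_add]
        exact inv_pow_of z (k + 1) (n + m) (by rw [← pow_add, ← hz]; congr 1; omega)
      rw [q1, q2])
  obtain ⟨Q', hc, hr⟩ := Chain.simulate RelPath (2 * (2 * n + 1))
    (fun x a b hx hs => sim_path x a b hx hs) hch _ hrel
  refine ⟨Q', hc, Q' 0 - u * Qf z 0, ?_⟩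
  have key : ∀ l : ℕ, ∀ hl : l < 2 * n + 1, Q' ⟨l, hl⟩ = Q' 0 - u * Qf z 0 + u * Qf z l := by
    intro l
    induction l with
    | zero => intro hl; simp
    | succ l ih =>
      intro hl
      have hl' : l < 2 * n := by omega
      have h1 := hr ⟨l, hl'⟩
      rw [hy'] at h1
      have h2 := ih (by omega)
      have c1 : (⟨l, hl'⟩ : Fin (2 * n)).castSucc = ⟨l, by omega⟩ := rfl
      have c2 : (⟨l, hl'⟩ : Fin (2 * n)).succ = ⟨l + 1, hl⟩ := rfl
      rw [c1, c2, h2] at h1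
      simp only [hy] at h1
      rw [← hu] at h1
      linear_combination -h1
  intro l
  exact key l.val l.2

/-- The pairs of opposite vertices of a `2 (2 n + 1)`-gon. -/
theorem even_pairs (n : ℕ) (hn : 0 < n) (z : ℂ) (hz : z ^ (2 * n + 1) = 1) (hs : z + z⁻¹ ≠ 0)
    (hz1 : z ≠ 1) :
    ∃ X' : Fin (2 * n + 1) → ℂ,
      Chain Elem (2 * (2 * n + 2) * (2 * (n * n))) (fun l => Qf z l.val) X' ∧
      ∀ l, X' l = (1 + 2 * (z + z⁻¹)⁻¹) * Qf z l.val := by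
  have hz0 : z ≠ 0 := by
    intro h; rw [h, zero_pow (by omega)] at hz; exact zero_ne_one hz
  have hzi : z * z⁻¹ = 1 := mul_inv_cancel₀ hz0
  have hz1' : z - 1 ≠ 0 := sub_ne_zero.mpr hz1
  set u : ℂ := 1 + 2 * (z + z⁻¹)⁻¹ with hu
  set τ : ℕ → ℂ := fun b => ∑ l ∈ range b, Qf z l with hτ
  -- closed forms
  have closed : ∀ k : ℕ, (z - 1) * τ (2 * k + 1) = z ^ (k + 1) - z⁻¹ ^ k := by
    intro k
    induction k with
    | zero => simp [hτ, Qf]
    | succ k ih =>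
      have e : 2 * (k + 1) + 1 = (2 * k + 1) + 1 + 1 := by ring
      have h1 : τ (2 * (k + 1) + 1) = τ (2 * k + 1) + Qf z (2 * k + 1) + Qf z (2 * (k + 1)) := by
        rw [e]; simp only [hτ]
        rw [Finset.sum_range_succ, Finset.sum_range_succ _ (2 * k + 1)]
        rfl
      rw [h1, Qf_odd, Qf_even]
      have q1 : z * z⁻¹ ^ (k + 1) = z⁻¹ ^ k := by
        rw [pow_succ]; rw [← mul_assoc, mul_comm z (z⁻¹ ^ k), mul_assoc, hzi, mul_one]
      linear_combination ih + q1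
  have closed2 : ∀ k : ℕ, (z - 1) * τ (2 * k + 2) = z ^ (k + 2) - z⁻¹ ^ k := by
    intro k
    have h1 : τ (2 * k + 2) = τ (2 * k + 1) + Qf z (2 * k + 1) := by
      simp only [hτ]; rw [Finset.sum_range_succ _ (2 * k + 1)]
    rw [h1, Qf_odd]
    linear_combination closed k
  have hp : z ^ (n + 1) = z⁻¹ ^ n :=
    (inv_pow_of z (n + 1) n (by rw [← pow_add, ← hz]; congr 1; ring)).symm
  have τ0 : τ 0 = 0 := by simp [hτ]
  have τend : τ (2 * n + 1) = 0 := by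
    have := closed n
    rw [hp, sub_self] at this
    exact (mul_eq_zero.mp this).resolve_left hz1'
  set σ : Fin (2 * n) → ℂ := fun i => τ (i.val + 1) with hσ
  have hrel : RelSum (fun l : Fin (2 * n + 1) => Qf z l.val) σ := by
    refine ⟨τ, τ0, τend, fun i => rfl, ?_⟩
    intro j
    simp only [hτ]
    rw [Finset.sum_range_succ]; ring
  obtain ⟨σ', hch, hσ'⟩ := two_families n hn z hz hs (z / (z - 1)) (- z⁻¹ ^ n / (z - 1)) σ
    (by
      intro i m h1 h2 h3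
      obtain ⟨m', rfl⟩ : ∃ m', m = m' + 1 := ⟨m - 1, by omega⟩
      have e1 : i.val + 1 = 2 * m' + 2 := by omega
      simp only [hσ]
      rw [e1]
      have h4 := closed2 m'
      have q1 : z * z⁻¹ ^ (m' + 1) = z⁻¹ ^ m' := by
        rw [pow_succ]; rw [← mul_assoc, mul_comm z (z⁻¹ ^ m'), mul_assoc, hzi, mul_one]
      rw [div_mul_eq_mul_div, eq_div_iff hz1']
      linear_combination h4 + q1)
    (by
      intro i m h1 h2 h3
      obtain ⟨k, hk⟩ : ∃ k, n = m + k := ⟨n - m, by omega⟩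
      have e1 : i.val + 1 = 2 * k + 1 := by omega
      simp only [hσ]
      rw [e1]
      have h4 := closed k
      have q1 : z⁻¹ ^ n * z ^ m = z⁻¹ ^ k := by
        rw [hk, pow_add, mul_comm (z⁻¹ ^ m), mul_assoc, ← mul_pow, mul_comm z⁻¹ z, hzi, one_pow,
          mul_one]
      have q2 : z⁻¹ ^ n * z⁻¹ ^ m = z ^ (k + 1) := by
        rw [← pow_add]
        exact inv_pow_of z (k + 1) (n + m) (by rw [← pow_add, ← hz]; congr 1; omega)
      rw [div_mul_eq_mul_div, eq_div_iff hz1']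
      linear_combination h4 + q1 - q2)
  obtain ⟨X', hc, hr⟩ := Chain.simulate RelSum (2 * (2 * n + 2))
    (fun x a b hx hs => sim_sum x a b hx hs) hch _ hrel
  refine ⟨X', hc, ?_⟩
  obtain ⟨τ', t0, t1, t2, t3⟩ := hr
  have hττ : ∀ b ≤ 2 * n + 1, τ' b = u * τ b := by
    intro b hb
    rcases Nat.eq_zero_or_pos b with h | h
    · rw [h, t0, τ0, mul_zero]
    · by_cases hb2 : b = 2 * n + 1
      · rw [hb2, t1, τend, mul_zero]
      · have hlt : b - 1 < 2 * n := by omega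
        have h4 := t2 ⟨b - 1, hlt⟩
        have h5 := hσ' ⟨b - 1, hlt⟩
        have e : b - 1 + 1 = b := by omega
        simp only [hσ, e] at h4 h5
        rw [← h4, h5]
  intro l
  have hl := l.2
  rw [t3 l, hττ _ (by omega), hττ _ (by omega)]
  have : Qf z l.val = τ (l.val + 1) - τ l.val := by
    simp only [hτ]; rw [Finset.sum_range_succ]; ring
  rw [this]; ring

end Pool.Agent.X184.RM
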