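import Pool.Agent.X184.RM.D

/-!
# Assembly: every polygon with more than six vertices
-/

namespace Pool.Agent.X184.RM

open Finset Function

/-- The vertices of the regular `N`-gon. -/
noncomputable def regular (N : ℕ) : Fin N → ℂ :=
  fun j => Complex.exp (2 * Real.pi * Complex.I * (j.val : ℂ) / N)

theorem regular_eq (N : ℕ) (j : Fin N) :
    regular N j = Complex.exp (2 * Real.pi * Complex.I / N) ^ j.val := by
  unfold regular
  rw [← Complex.exp_nat_mul]
  congr 1; ring

theorem exists_equiv {ι : Type*} [Fintype ι] (N : ℕ) (hN : 0 < N) (hcard : Fintype.card ι = N)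
    (p : ι → ℂ) (hp : Injective p) (h : ∀ i, p i ^ N = 1) :
    ∃ e : ι ≃ Fin N, ∀ i, p i = regular N (e i) := by
  have : NeZero N := ⟨hN.ne'⟩
  have hprim := Complex.isPrimitiveRoot_exp N hN.ne'
  have hex : ∀ i, ∃ k : Fin N, regular N k = p i := by
    intro i
    obtain ⟨k, hk, hk'⟩ := hprim.eq_pow_of_pow_eq_one (h i)
    refine ⟨⟨k, hk⟩, ?_⟩
    rw [regular_eq]; exact hk'
  choose f hf using hex
  have hinj : Injective f := by
    intro a b hab
    apply hp
    rw [← hf a, ← hf b, hab]
  have hbij : Bijective f :=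
    (Fintype.bijective_iff_injective_and_card f).mpr ⟨hinj, by simp [hcard]⟩
  exact ⟨Equiv.ofBijective f hbij, fun i => (hf i).symm⟩

theorem Chain.reindex {ι ι' : Type*} [DecidableEq ι] [DecidableEq ι'] (e : ι ≃ ι') {k : ℕ}
    {p p' : ι → ℂ} (h : Chain Move k p p') : Chain Move k (p ∘ e.symm) (p' ∘ e.symm) := by
  induction h with
  | refl k a => exact Chain.refl _ _
  | @step k a b c h hs ih =>
    cases hs with
    | jump i j hij =>
      refine Chain.step ih ?_
      rw [Function.update_comp_equiv]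
      have := Move.jump (b ∘ e.symm) (e i) (e j) (fun h => hij (e.injective h))
      simpa using this

theorem Chain.mulLeft {ι : Type*} [DecidableEq ι] (a : ℂ) {k : ℕ} {p p' : ι → ℂ}
    (h : Chain Move k p p') : Chain Move k (fun i => a * p i) (fun i => a * p' i) := by
  induction h with
  | refl k p => exact Chain.refl _ _
  | @step k a' b c h hs ih =>
    cases hs with
    | jump i j hij =>
      refine Chain.step ih ?_
      have h1 := Move.jump (fun i => a * b i) i j hij
      have e : update (fun i => a * b i) i (2 * (a * b j) - a * b i)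
          = fun l => a * update b i (2 * b j - b i) l := by
        ext l
        by_cases hl : l = i
        · subst hl; rw [update_self, update_self]; ring
        · rw [update_of_ne hl, update_of_ne hl]
      rw [e] at h1
      exact h1

theorem Chain.embed {κ ι : Type*} [DecidableEq κ] [DecidableEq ι] (e : κ → ι) (he : Injective e)
    (q : ι → ℂ) {k : ℕ} {p p' : κ → ℂ} (h : Chain Move k p p') :
    Chain Move k (extend e p q) (extend e p' q) := by
  induction h with
  | refl k p => exact Chain.refl _ _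
  | @step k a' b c h hs ih =>
    cases hs with
    | jump i j hij =>
      refine Chain.step ih ?_
      have h1 := Move.jump (extend e b q) (e i) (e j) (fun h => hij (he h))
      have e1 : update (extend e b q) (e i) (2 * extend e b q (e j) - extend e b q (e i))
          = extend e (update b i (2 * b j - b i)) q := by
        rw [he.extend_apply, he.extend_apply]
        ext l
        by_cases hl : l = e i
        · subst hl; rw [update_self, he.extend_apply, update_self]
        · rw [update_of_ne hl]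
          by_cases hex : ∃ a, e a = l
          · obtain ⟨a, rfl⟩ := hex
            have hai : a ≠ i := fun h => hl (by rw [h])
            rw [he.extend_apply, he.extend_apply, update_of_ne hai]
          · rw [extend_apply' _ _ _ hex, extend_apply' _ _ _ hex]
      rw [e1] at h1
      exact h1

/-- The regular `N`-gon can be moved onto a larger one by at most `k` moves. -/
def Good (N k : ℕ) : Prop :=
  ∃ q : Fin N → ℂ, Chain Move k (regular N) q ∧ ∃ c u : ℂ, 1 < ‖u‖ ∧
    Set.range q = (fun v => c + u * v) '' Set.range (regular N)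

/-- The same with the centre fixed. -/
def Good0 (N k : ℕ) : Prop :=
  ∃ q : Fin N → ℂ, Chain Move k (regular N) q ∧ ∃ u : ℂ, 1 < ‖u‖ ∧
    Set.range q = (fun v => u * v) '' Set.range (regular N)

theorem Good0.good {N k : ℕ} (h : Good0 N k) : Good N k := by
  obtain ⟨q, hq, u, hu, hr⟩ := h
  exact ⟨q, hq, 0, u, hu, by simpa using hr⟩

theorem relPair_range {κ : Type*} {p : κ × Bool → ℂ} {x : κ → ℂ} (h : RelPair p x) (v : ℂ) :
    v ∈ Set.range p ↔ ∃ j, v = x j ∨ v = - x j := by
  constructor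
  · rintro ⟨⟨j, c⟩, rfl⟩
    obtain ⟨b, hb1, hb2⟩ := h j
    refine ⟨j, ?_⟩
    by_cases hc : c = b
    · left; rw [hc, hb1]
    · right
      have : c = !b := by cases c <;> cases b <;> simp_all
      rw [this, hb2]
  · rintro ⟨j, hv | hv⟩
    · obtain ⟨b, hb1, hb2⟩ := h j
      exact ⟨(j, b), by rw [hb1, hv]⟩
    · obtain ⟨b, hb1, hb2⟩ := h j
      exact ⟨(j, !b), by rw [hb2, hv]⟩

theorem good_of_pairs {κ : Type*} [Fintype κ] [DecidableEq κ] (h : ℕ) (hh : 0 < h)
    (hcard : Fintype.card κ = h) (X X' : κ → ℂ) (u : ℂ) (hu : 1 < ‖u‖)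
    (hX : ∀ j, X' j = u * X j) (k : ℕ) (hc : Chain Elem k X X')
    (hinj : Injective (fun x : κ × Bool => if x.2 then X x.1 else - X x.1))
    (hroot : ∀ j, X j ^ (2 * h) = 1) : Good0 (2 * h) (2 * k) := by
  set p : κ × Bool → ℂ := fun x => if x.2 then X x.1 else - X x.1 with hp
  have hrel : RelPair p X := fun j => ⟨true, by simp [hp], by simp [hp]⟩
  obtain ⟨p', hch, hr⟩ := Chain.simulate RelPair 2 (fun x a b hx hs => sim_pair x a b hx hs) hc p
    hrel
  obtain ⟨e, he⟩ := exists_equiv (2 * h) (by omega)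
    (by rw [Fintype.card_prod, hcard, Fintype.card_bool]; ring) p hinj (by
      rintro ⟨j, b⟩
      cases b
      · simp only [hp, Bool.false_eq_true, if_false]
        rw [neg_pow, hroot, mul_one, pow_mul]; norm_num
      · simp only [hp, if_true]; exact hroot j)
  have hreg : regular (2 * h) = p ∘ e.symm := by
    ext j; simp [he]
  refine ⟨p' ∘ e.symm, ?_, u, hu, ?_⟩
  · rw [hreg]; exact hch.reindex e
  · rw [hreg, Set.range_comp p' e.symm, e.symm.surjective.range_eq, Set.image_univ,
      Set.range_comp p e.symm, e.symm.surjective.range_eq, Set.image_univ]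
    ext v
    rw [relPair_range hr, Set.mem_image]
    constructor
    · rintro ⟨j, hv | hv⟩
      · exact ⟨X j, (relPair_range hrel _).mpr ⟨j, Or.inl rfl⟩, by rw [hv, hX]⟩
      · exact ⟨- X j, (relPair_range hrel _).mpr ⟨j, Or.inr rfl⟩, by rw [hv, hX]; ring⟩
    · rintro ⟨w, hw, rfl⟩
      obtain ⟨j, hj | hj⟩ := (relPair_range hrel _).mp hw
      · exact ⟨j, Or.inl (by rw [hj, hX])⟩
      · exact ⟨j, Or.inr (by rw [hj, hX]; ring)⟩

/-! ### Facts on the root of unity -/

theorem Qf_inj {n : ℕ} {z : ℂ} (hz : IsPrimitiveRoot z (2 * n + 1)) {a b : ℕ}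
    (ha : a < 2 * n + 1) (hb : b < 2 * n + 1) (h : Qf z a = Qf z b) : a = b := by
  have hz0 : z ≠ 0 := hz.ne_zero (by omega)
  have key : ∀ s t : ℕ, s + 1 ≤ n → t ≤ n → z ^ (s + 1) ≠ z⁻¹ ^ t := by
    intro s t hs ht h
    have h1 : z ^ (s + 1 + t) = 1 := by
      rw [pow_add, h, ← mul_pow, inv_mul_cancel₀ hz0, one_pow]
    have h2 := (hz.pow_eq_one_iff_dvd _).mp h1
    have := Nat.le_of_dvd (by omega) h2
    omega
  rcases Nat.even_or_odd' a with ⟨s, hs | hs⟩ <;> rcases Nat.even_or_odd' b with ⟨t, ht | ht⟩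
  · subst hs; subst ht
    rw [Qf_even, Qf_even, inv_pow, inv_pow, inv_inj] at h
    have := hz.pow_inj (by omega) (by omega) h
    omega
  · subst hs; subst ht
    rw [Qf_even, Qf_odd] at h
    exact absurd h.symm (key t s (by omega) (by omega))
  · subst hs; subst ht
    rw [Qf_even, Qf_odd] at h
    exact absurd h (key s t (by omega) (by omega))
  · subst hs; subst ht
    rw [Qf_odd, Qf_odd] at h
    have := hz.pow_inj (by omega) (by omega) h
    omega

theorem Qf_pow {n : ℕ} {z : ℂ} (hz : z ^ (2 * n + 1) = 1) (a : ℕ) : Qf z a ^ (2 * n + 1) = 1 := by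
  unfold Qf
  split
  · rw [← pow_mul, mul_comm, pow_mul, hz, one_pow]
  · rw [← pow_mul, mul_comm, pow_mul, inv_pow, hz, inv_one, one_pow]

/-- the unit -/
theorem unit_facts (n : ℕ) (hn : 2 ≤ n) :
    let z := Complex.exp (2 * Real.pi * Complex.I / ((2 * n + 1 : ℕ) : ℂ))
    z + z⁻¹ ≠ 0 ∧ 1 < ‖1 + 2 * (z + z⁻¹)⁻¹‖ := by
  intro z
  set θ : ℝ := 2 * Real.pi / ((2 * n + 1 : ℕ) : ℝ) with hθ
  have hz : z = Complex.exp (θ * Complex.I) := by
    simp only [z, hθ]; congr 1; push_cast; ring
  have hsum : z + z⁻¹ = ((2 * Real.cos θ : ℝ) : ℂ) := by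
    rw [hz, ← Complex.exp_neg]
    push_cast
    rw [Complex.cos]
    ring_nf
  have hnR : (5 : ℝ) ≤ ((2 * n + 1 : ℕ) : ℝ) := by
    have : 5 ≤ 2 * n + 1 := by omega
    exact_mod_cast this
  have hpi := Real.pi_pos
  have hθ0 : 0 < θ := by rw [hθ]; positivity
  have hθ1 : θ < Real.pi / 2 := by
    rw [hθ, div_lt_iff₀ (by linarith)]
    nlinarith
  have hcos : 0 < Real.cos θ := Real.cos_pos_of_mem_Ioo ⟨by linarith, hθ1⟩
  rw [hsum]
  refine ⟨?_, ?_⟩
  · have : (2 * Real.cos θ : ℝ) ≠ 0 := by positivity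
    exact_mod_cast this
  · have e : (1 : ℂ) + 2 * (((2 * Real.cos θ : ℝ) : ℂ))⁻¹
        = ((1 + 2 * (2 * Real.cos θ)⁻¹ : ℝ) : ℂ) := by push_cast; ring
    rw [e, Complex.norm_real, Real.norm_of_nonneg (by positivity)]
    have : 0 < 2 * (2 * Real.cos θ)⁻¹ := by positivity
    linarith

theorem good_odd (n : ℕ) (hn : 2 ≤ n) : Good (2 * n + 1) (2 * (2 * n + 1) * (2 * (n * n))) := by
  obtain ⟨h1, h2⟩ := unit_facts n hn
  set z := Complex.exp (2 * Real.pi * Complex.I / ((2 * n + 1 : ℕ) : ℂ)) with hz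
  have hprim : IsPrimitiveRoot z (2 * n + 1) := Complex.isPrimitiveRoot_exp _ (by omega)
  obtain ⟨Q', hch, c, hc⟩ := odd_path n (by omega) z hprim.pow_eq_one h1
  obtain ⟨e, he⟩ := exists_equiv (2 * n + 1) (by omega) (by simp)
    (fun l : Fin (2 * n + 1) => Qf z l.val)
    (fun a b hab => Fin.ext (Qf_inj hprim a.2 b.2 hab)) (fun i => Qf_pow hprim.pow_eq_one _)
  have hreg : regular (2 * n + 1) = (fun l : Fin (2 * n + 1) => Qf z l.val) ∘ e.symm := by
    ext j; simp [he]
  refine ⟨Q' ∘ e.symm, ?_, c, _, h2, ?_⟩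
  · rw [hreg]; exact hch.reindex e
  · rw [hreg, Set.range_comp Q' e.symm, e.symm.surjective.range_eq, Set.image_univ,
      Set.range_comp _ e.symm, e.symm.surjective.range_eq, Set.image_univ]
    ext v
    rw [Set.mem_image]
    constructor
    · rintro ⟨l, rfl⟩
      exact ⟨_, ⟨l, rfl⟩, (hc l).symm⟩
    · rintro ⟨w, ⟨l, rfl⟩, rfl⟩
      exact ⟨l, hc l⟩

theorem good_even (n : ℕ) (hn : 2 ≤ n) :
    Good0 (2 * (2 * n + 1)) (2 * (2 * (2 * n + 2) * (2 * (n * n)))) := by
  obtain ⟨h1, h2⟩ := unit_facts n hn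
  set z := Complex.exp (2 * Real.pi * Complex.I / ((2 * n + 1 : ℕ) : ℂ)) with hz
  have hprim : IsPrimitiveRoot z (2 * n + 1) := Complex.isPrimitiveRoot_exp _ (by omega)
  have hz1 : z ≠ 1 := hprim.ne_one (by omega)
  obtain ⟨X', hch, hX⟩ := even_pairs n (by omega) z hprim.pow_eq_one h1 hz1
  refine good_of_pairs (2 * n + 1) (by omega) (by simp) _ X' _ h2 hX _ hch ?_ ?_
  · have hodd : ∀ a b : ℕ, Qf z a ≠ - Qf z b := by
      intro a b hab
      have e1 := Qf_pow hprim.pow_eq_one (z := z) a
      rw [hab, neg_pow, Qf_pow hprim.pow_eq_one, mul_one, pow_succ, pow_mul] at e1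
      norm_num at e1
    rintro ⟨a, c⟩ ⟨b, d⟩ hab
    cases c <;> cases d
    · simp only [Bool.false_eq_true, if_false, neg_inj] at hab
      rw [Fin.ext (Qf_inj hprim a.2 b.2 hab)]
    · simp only [Bool.false_eq_true, if_false, if_true] at hab
      exact absurd hab.symm (hodd _ _)
    · simp only [Bool.false_eq_true, if_false, if_true] at hab
      exact absurd hab (hodd _ _)
    · simp only [if_true] at hab
      rw [Fin.ext (Qf_inj hprim a.2 b.2 hab)]
  · intro j
    have h3 := Qf_pow hprim.pow_eq_one j.val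
    rw [pow_mul', h3, one_pow]

/-! ### Powers of a root of unity -/

theorem sq_eq_one {x : ℂ} (h : x ^ 2 = 1) : x = 1 ∨ x = -1 := by
  have : (x - 1) * (x + 1) = 0 := by linear_combination h
  rcases mul_eq_zero.mp this with h | h
  · exact Or.inl (sub_eq_zero.mp h)
  · exact Or.inr (eq_neg_of_add_eq_zero_left h)

theorem good_of_pow (h : ℕ) (hh : 0 < h) (u : ℂ) (hu : 1 < ‖u‖) (k : ℕ) (X' : Fin h → ℂ)
    (hc : Chain Elem k
      (fun j : Fin h => Complex.exp (2 * Real.pi * Complex.I / ((2 * h : ℕ) : ℂ)) ^ j.val) X')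
    (hX : ∀ j, X' j = u * Complex.exp (2 * Real.pi * Complex.I / ((2 * h : ℕ) : ℂ)) ^ j.val) :
    Good0 (2 * h) (2 * k) := by
  set z := Complex.exp (2 * Real.pi * Complex.I / ((2 * h : ℕ) : ℂ)) with hz
  have hprim : IsPrimitiveRoot z (2 * h) := Complex.isPrimitiveRoot_exp _ (by omega)
  have hneg : z ^ h = -1 := by
    have h1 : (z ^ h) ^ 2 = 1 := by rw [← pow_mul, mul_comm]; exact hprim.pow_eq_one
    rcases (sq_eq_one h1) with h | h
    · exfalso
      have := (hprim.pow_eq_one_iff_dvd _).mp h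
      have := Nat.le_of_dvd hh this
      omega
    · exact h
  refine good_of_pairs h hh (by simp) _ X' u hu hX k hc ?_ ?_
  · have e : (fun x : Fin h × Bool => if x.2 then z ^ x.1.val else - z ^ x.1.val)
        = fun x => z ^ (x.1.val + if x.2 then 0 else h) := by
      ext ⟨j, b⟩
      cases b
      · simp only [Bool.false_eq_true, if_false]
        rw [pow_add, hneg]; ring
      · simp
    rw [e]
    rintro ⟨a, c⟩ ⟨b, d⟩ hab
    have ha := a.2
    have hb := b.2
    have := hprim.pow_inj (by cases c <;> simp <;> omega) (by cases d <;> simp <;> omega) hab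
    cases c <;> cases d <;> simp at this
    · rw [Fin.ext this]
    · omega
    · omega
    · rw [Fin.ext this]
  · intro j
    rw [← pow_mul, mul_comm, pow_mul, hprim.pow_eq_one, one_pow]

end Pool.Agent.X184.RM
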