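import Pool.Agent.X184.RM.E

/-!
# The 8-gon, the 12-gon, concentric sub-polygons
-/

namespace Pool.Agent.X184.RM

open Finset Function

theorem cadd {κ : Type*} [DecidableEq κ] (v v' : κ → ℂ) (i j : κ) (h : i ≠ j)
    (hi : v' i = v i + 2 * v j) (ho : ∀ l, l ≠ i → v' l = v l) : Chain Elem 1 v v' := by
  have : v' = update v i (v i + 2 * v j) := by
    ext l
    by_cases hl : l = i
    · subst hl; rw [update_self, hi]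
    · rw [update_of_ne hl, ho l hl]
  rw [this]
  exact Chain.single (Elem.add v i j h)

theorem csub {κ : Type*} [DecidableEq κ] (v v' : κ → ℂ) (i j : κ) (h : i ≠ j)
    (hi : v' i = v i - 2 * v j) (ho : ∀ l, l ≠ i → v' l = v l) : Chain Elem 1 v v' := by
  have : v' = update v i (v i - 2 * v j) := by
    ext l
    by_cases hl : l = i
    · subst hl; rw [update_self, hi]
    · rw [update_of_ne hl, ho l hl]
  rw [this]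
  exact Chain.single (Elem.sub v i j h)

theorem cneg {κ : Type*} [DecidableEq κ] (v v' : κ → ℂ) (i : κ)
    (hi : v' i = - v i) (ho : ∀ l, l ≠ i → v' l = v l) : Chain Elem 1 v v' := by
  have : v' = update v i (- v i) := by
    ext l
    by_cases hl : l = i
    · subst hl; rw [update_self, hi]
    · rw [update_of_ne hl, ho l hl]
  rw [this]
  exact Chain.single (Elem.neg v i)

theorem cnadd {κ : Type*} [DecidableEq κ] (v v' : κ → ℂ) (i j : κ) (h : i ≠ j)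
    (hi : v' i = - v i + 2 * v j) (ho : ∀ l, l ≠ i → v' l = v l) : Chain Elem 2 v v' := by
  have h1 := cneg v (update v i (- v i)) i (by rw [update_self])
    (fun l hl => by rw [update_of_ne hl])
  have h2 := cadd (update v i (- v i)) v' i j h
    (by rw [update_self, update_of_ne h.symm, hi])
    (fun l hl => by rw [update_of_ne hl, ho l hl])
  exact h1.trans h2

theorem oct (w : ℂ) (hw : w ^ 4 = -1) :
    ∃ X' : Fin 4 → ℂ, Chain Elem 14 (fun j : Fin 4 => w ^ j.val) X' ∧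
      ∀ j, X' j = (3 + 2 * w - 2 * w ^ 3) * w ^ j.val := by
  have e0 : (fun j : Fin 4 => w ^ j.val) = ![1, w, w ^ 2, w ^ 3] := by
    ext j; fin_cases j <;> simp
  rw [e0]
  have s1 : Chain Elem 1 ![1, w, w ^ 2, w ^ 3] ![1 - 2 * w ^ 2, w, w ^ 2, w ^ 3] :=
    csub _ _ 0 2 (by decide) (by simp) (by intro l hl; fin_cases l <;> simp at hl ⊢)
  have s2 : Chain Elem 1 ![1 - 2 * w ^ 2, w, w ^ 2, w ^ 3]
      ![1 - 2 * w ^ 2, w + 2 * w ^ 2, w ^ 2, w ^ 3] :=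
    cadd _ _ 1 2 (by decide) (by simp) (by intro l hl; fin_cases l <;> simp at hl ⊢)
  have s3 : Chain Elem 1 ![1 - 2 * w ^ 2, w + 2 * w ^ 2, w ^ 2, w ^ 3]
      ![1 - 2 * w ^ 2, w + 2 * w ^ 2, w ^ 2 - 2 * w ^ 3, w ^ 3] :=
    csub _ _ 2 3 (by decide) (by simp) (by intro l hl; fin_cases l <;> simp at hl ⊢)
  have s4 : Chain Elem 1 ![1 - 2 * w ^ 2, w + 2 * w ^ 2, w ^ 2 - 2 * w ^ 3, w ^ 3]
      ![1 - 2 * w ^ 2, w + 2 * w ^ 2, w ^ 2 - 2 * w ^ 3, 2 * w ^ 2 - 3 * w ^ 3] :=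
    cadd _ _ 3 2 (by decide) (by simp; ring) (by intro l hl; fin_cases l <;> simp at hl ⊢)
  have s5 : Chain Elem 1 ![1 - 2 * w ^ 2, w + 2 * w ^ 2, w ^ 2 - 2 * w ^ 3, 2 * w ^ 2 - 3 * w ^ 3]
      ![1 - 2 * w ^ 2, w + 2 * w ^ 2, w ^ 2 - 2 * w ^ 3, 2 - 2 * w ^ 2 - 3 * w ^ 3] :=
    cadd _ _ 3 0 (by decide) (by simp; ring) (by intro l hl; fin_cases l <;> simp at hl ⊢)
  have s6 : Chain Elem 1
      ![1 - 2 * w ^ 2, w + 2 * w ^ 2, w ^ 2 - 2 * w ^ 3, 2 - 2 * w ^ 2 - 3 * w ^ 3]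
      ![1 + 2 * w + 2 * w ^ 2, w + 2 * w ^ 2, w ^ 2 - 2 * w ^ 3, 2 - 2 * w ^ 2 - 3 * w ^ 3] :=
    cadd _ _ 0 1 (by decide) (by simp; ring) (by intro l hl; fin_cases l <;> simp at hl ⊢)
  have s7 : Chain Elem 2
      ![1 + 2 * w + 2 * w ^ 2, w + 2 * w ^ 2, w ^ 2 - 2 * w ^ 3, 2 - 2 * w ^ 2 - 3 * w ^ 3]
      ![1 + 2 * w + 2 * w ^ 2, w + 2 * w ^ 2, 2 * w + 3 * w ^ 2 + 2 * w ^ 3,
        2 - 2 * w ^ 2 - 3 * w ^ 3] :=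
    cnadd _ _ 2 1 (by decide) (by simp; ring) (by intro l hl; fin_cases l <;> simp at hl ⊢)
  have s8 : Chain Elem 2
      ![1 + 2 * w + 2 * w ^ 2, w + 2 * w ^ 2, 2 * w + 3 * w ^ 2 + 2 * w ^ 3,
        2 - 2 * w ^ 2 - 3 * w ^ 3]
      ![1 + 2 * w + 2 * w ^ 2, 2 + 3 * w + 2 * w ^ 2, 2 * w + 3 * w ^ 2 + 2 * w ^ 3,
        2 - 2 * w ^ 2 - 3 * w ^ 3] :=
    cnadd _ _ 1 0 (by decide) (by simp; ring) (by intro l hl; fin_cases l <;> simp at hl ⊢)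
  have s9 : Chain Elem 1
      ![1 + 2 * w + 2 * w ^ 2, 2 + 3 * w + 2 * w ^ 2, 2 * w + 3 * w ^ 2 + 2 * w ^ 3,
        2 - 2 * w ^ 2 - 3 * w ^ 3]
      ![1 - 2 * w - 4 * w ^ 2 - 4 * w ^ 3, 2 + 3 * w + 2 * w ^ 2, 2 * w + 3 * w ^ 2 + 2 * w ^ 3,
        2 - 2 * w ^ 2 - 3 * w ^ 3] :=
    csub _ _ 0 2 (by decide) (by simp; ring) (by intro l hl; fin_cases l <;> simp at hl ⊢)
  have s10 : Chain Elem 2
      ![1 - 2 * w - 4 * w ^ 2 - 4 * w ^ 3, 2 + 3 * w + 2 * w ^ 2, 2 * w + 3 * w ^ 2 + 2 * w ^ 3,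
        2 - 2 * w ^ 2 - 3 * w ^ 3]
      ![3 + 2 * w - 2 * w ^ 3, 2 + 3 * w + 2 * w ^ 2, 2 * w + 3 * w ^ 2 + 2 * w ^ 3,
        2 - 2 * w ^ 2 - 3 * w ^ 3] :=
    cnadd _ _ 0 3 (by decide) (by simp; ring) (by intro l hl; fin_cases l <;> simp at hl ⊢)
  have s11 : Chain Elem 1
      ![3 + 2 * w - 2 * w ^ 3, 2 + 3 * w + 2 * w ^ 2, 2 * w + 3 * w ^ 2 + 2 * w ^ 3,
        2 - 2 * w ^ 2 - 3 * w ^ 3]
      ![3 + 2 * w - 2 * w ^ 3, 2 + 3 * w + 2 * w ^ 2, 2 * w + 3 * w ^ 2 + 2 * w ^ 3,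
        -2 + 2 * w ^ 2 + 3 * w ^ 3] :=
    cneg _ _ 3 (by simp; ring) (by intro l hl; fin_cases l <;> simp at hl ⊢)
  refine ⟨_, (((((((((s1.trans s2).trans s3).trans s4).trans s5).trans s6).trans s7).trans
    s8).trans s9).trans s10).trans s11, ?_⟩
  intro j
  fin_cases j
  · simp
  · simp; linear_combination 2 * hw
  · simp; linear_combination (2 * w) * hw
  · simp; linear_combination (-2 + 2 * w ^ 2) * hw

theorem dodec (w : ℂ) (hw : w ^ 4 = w ^ 2 - 1) :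
    ∃ X' : Fin 6 → ℂ, Chain Elem 17 (fun j : Fin 6 => w ^ j.val) X' ∧
      ∀ j, X' j = (1 - 2 * w ^ 2 - 2 * w ^ 3) * w ^ j.val := by
  have h5 : w ^ 5 = w ^ 3 - w := by linear_combination w * hw
  have e0 : (fun j : Fin 6 => w ^ j.val)
      = ![1, w, w ^ 2, w ^ 3, w ^ 2 - 1, w ^ 3 - w] := by
    ext j; fin_cases j <;> simp [hw, h5]
  rw [e0]
  have s1 : Chain Elem 1 ![1, w, w ^ 2, w ^ 3, w ^ 2 - 1, w ^ 3 - w]
      ![1, w, w ^ 2, w ^ 3, w ^ 2 - 1, w ^ 3 + w] :=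
    cadd _ _ 5 1 (by decide) (by simp; ring) (by intro l hl; fin_cases l <;> simp at hl ⊢)
  have s2 : Chain Elem 1 ![1, w, w ^ 2, w ^ 3, w ^ 2 - 1, w ^ 3 + w]
      ![1, w, w ^ 2, w ^ 3, w ^ 2 + 1, w ^ 3 + w] :=
    cadd _ _ 4 0 (by decide) (by simp; ring) (by intro l hl; fin_cases l <;> simp at hl ⊢)
  have s3 : Chain Elem 1 ![1, w, w ^ 2, w ^ 3, w ^ 2 + 1, w ^ 3 + w]
      ![1 - 2 * w ^ 3, w, w ^ 2, w ^ 3, w ^ 2 + 1, w ^ 3 + w] :=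
    csub _ _ 0 3 (by decide) (by simp) (by intro l hl; fin_cases l <;> simp at hl ⊢)
  have s4 : Chain Elem 1 ![1 - 2 * w ^ 3, w, w ^ 2, w ^ 3, w ^ 2 + 1, w ^ 3 + w]
      ![1 - 2 * w ^ 3, w, w ^ 2, 2 * w ^ 2 + w ^ 3, w ^ 2 + 1, w ^ 3 + w] :=
    cadd _ _ 3 2 (by decide) (by simp; ring) (by intro l hl; fin_cases l <;> simp at hl ⊢)
  have s5 : Chain Elem 2 ![1 - 2 * w ^ 3, w, w ^ 2, 2 * w ^ 2 + w ^ 3, w ^ 2 + 1, w ^ 3 + w]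
      ![1 - 2 * w ^ 3, w, w ^ 2, 2 - w ^ 3, w ^ 2 + 1, w ^ 3 + w] :=
    cnadd _ _ 3 4 (by decide) (by simp; ring) (by intro l hl; fin_cases l <;> simp at hl ⊢)
  have s6 : Chain Elem 1 ![1 - 2 * w ^ 3, w, w ^ 2, 2 - w ^ 3, w ^ 2 + 1, w ^ 3 + w]
      ![1 - 2 * w ^ 2 - 2 * w ^ 3, w, w ^ 2, 2 - w ^ 3, w ^ 2 + 1, w ^ 3 + w] :=
    csub _ _ 0 2 (by decide) (by simp; ring) (by intro l hl; fin_cases l <;> simp at hl ⊢)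
  have s7 : Chain Elem 1
      ![1 - 2 * w ^ 2 - 2 * w ^ 3, w, w ^ 2, 2 - w ^ 3, w ^ 2 + 1, w ^ 3 + w]
      ![1 - 2 * w ^ 2 - 2 * w ^ 3, w, w ^ 2, 2 - w ^ 3, w ^ 2 + 1, w + 2 * w ^ 2 + w ^ 3] :=
    cadd _ _ 5 2 (by decide) (by simp; ring) (by intro l hl; fin_cases l <;> simp at hl ⊢)
  have s8 : Chain Elem 1
      ![1 - 2 * w ^ 2 - 2 * w ^ 3, w, w ^ 2, 2 - w ^ 3, w ^ 2 + 1, w + 2 * w ^ 2 + w ^ 3]
      ![1 - 2 * w ^ 2 - 2 * w ^ 3, w, w ^ 2, 2 - w ^ 3, 1 + 2 * w + w ^ 2,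
        w + 2 * w ^ 2 + w ^ 3] :=
    cadd _ _ 4 1 (by decide) (by simp; ring) (by intro l hl; fin_cases l <;> simp at hl ⊢)
  have s9 : Chain Elem 1
      ![1 - 2 * w ^ 2 - 2 * w ^ 3, w, w ^ 2, 2 - w ^ 3, 1 + 2 * w + w ^ 2,
        w + 2 * w ^ 2 + w ^ 3]
      ![1 - 2 * w ^ 2 - 2 * w ^ 3, w, w ^ 2, 2 + 2 * w - w ^ 3, 1 + 2 * w + w ^ 2,
        w + 2 * w ^ 2 + w ^ 3] :=
    cadd _ _ 3 1 (by decide) (by simp; ring) (by intro l hl; fin_cases l <;> simp at hl ⊢)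
  have s10 : Chain Elem 1
      ![1 - 2 * w ^ 2 - 2 * w ^ 3, w, w ^ 2, 2 + 2 * w - w ^ 3, 1 + 2 * w + w ^ 2,
        w + 2 * w ^ 2 + w ^ 3]
      ![1 - 2 * w ^ 2 - 2 * w ^ 3, w + 2 * w ^ 2, w ^ 2, 2 + 2 * w - w ^ 3, 1 + 2 * w + w ^ 2,
        w + 2 * w ^ 2 + w ^ 3] :=
    cadd _ _ 1 2 (by decide) (by simp) (by intro l hl; fin_cases l <;> simp at hl ⊢)
  have s11 : Chain Elem 2
      ![1 - 2 * w ^ 2 - 2 * w ^ 3, w + 2 * w ^ 2, w ^ 2, 2 + 2 * w - w ^ 3, 1 + 2 * w + w ^ 2,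
        w + 2 * w ^ 2 + w ^ 3]
      ![1 - 2 * w ^ 2 - 2 * w ^ 3, w + 2 * w ^ 2, 2 * w + 3 * w ^ 2 + 2 * w ^ 3,
        2 + 2 * w - w ^ 3, 1 + 2 * w + w ^ 2, w + 2 * w ^ 2 + w ^ 3] :=
    cnadd _ _ 2 5 (by decide) (by simp; ring) (by intro l hl; fin_cases l <;> simp at hl ⊢)
  have s12 : Chain Elem 1
      ![1 - 2 * w ^ 2 - 2 * w ^ 3, w + 2 * w ^ 2, 2 * w + 3 * w ^ 2 + 2 * w ^ 3,
        2 + 2 * w - w ^ 3, 1 + 2 * w + w ^ 2, w + 2 * w ^ 2 + w ^ 3]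
      ![1 - 2 * w ^ 2 - 2 * w ^ 3, w + 2 * w ^ 2, 2 + 2 * w - w ^ 2 - 2 * w ^ 3,
        2 + 2 * w - w ^ 3, 1 + 2 * w + w ^ 2, w + 2 * w ^ 2 + w ^ 3] :=
    cadd _ _ 2 0 (by decide) (by simp; ring) (by intro l hl; fin_cases l <;> simp at hl ⊢)
  have s13 : Chain Elem 2
      ![1 - 2 * w ^ 2 - 2 * w ^ 3, w + 2 * w ^ 2, 2 + 2 * w - w ^ 2 - 2 * w ^ 3,
        2 + 2 * w - w ^ 3, 1 + 2 * w + w ^ 2, w + 2 * w ^ 2 + w ^ 3]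
      ![1 - 2 * w ^ 2 - 2 * w ^ 3, w + 2 * w ^ 2 + 2 * w ^ 3, 2 + 2 * w - w ^ 2 - 2 * w ^ 3,
        2 + 2 * w - w ^ 3, 1 + 2 * w + w ^ 2, w + 2 * w ^ 2 + w ^ 3] :=
    cnadd _ _ 1 5 (by decide) (by simp; ring) (by intro l hl; fin_cases l <;> simp at hl ⊢)
  have s14 : Chain Elem 1
      ![1 - 2 * w ^ 2 - 2 * w ^ 3, w + 2 * w ^ 2 + 2 * w ^ 3, 2 + 2 * w - w ^ 2 - 2 * w ^ 3,
        2 + 2 * w - w ^ 3, 1 + 2 * w + w ^ 2, w + 2 * w ^ 2 + w ^ 3]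
      ![1 - 2 * w ^ 2 - 2 * w ^ 3, 2 + w - 2 * w ^ 2 - 2 * w ^ 3, 2 + 2 * w - w ^ 2 - 2 * w ^ 3,
        2 + 2 * w - w ^ 3, 1 + 2 * w + w ^ 2, w + 2 * w ^ 2 + w ^ 3] :=
    cadd _ _ 1 0 (by decide) (by simp; ring) (by intro l hl; fin_cases l <;> simp at hl ⊢)
  refine ⟨_, (((s1.trans s2).trans (s3.trans s4)).trans ((s5.trans s6).trans (s7.trans s8))).trans
    (((s9.trans s10).trans (s11.trans s12)).trans (s13.trans s14)), ?_⟩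
  intro j
  fin_cases j
  · simp
  · simp; linear_combination 2 * hw
  · simp; linear_combination (2 + 2 * w) * hw
  · simp; linear_combination (2 * w + 2 * w ^ 2 + 2) * hw
  · simp; linear_combination (1 + 2 * w + 2 * w ^ 2 + 2 * w ^ 3) * hw
  · simp; linear_combination (w + 2 * w ^ 2 + 2 * w ^ 3 + 2 * w ^ 4) * hw

end Pool.Agent.X184.RM
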